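import Pool.Agent.Helper96.FP.Top

/-!
# Project FP, step 4: fixed vectors of a subgroup, invariant cones, the top eigenvector of a sphere average
-/

set_option autoImplicit false

open Filter Topology RCLike

namespace Pool.Agent.Helper96.FP

variable {𝕜 : Type*} [RCLike 𝕜] {E : Type*} [NormedAddCommGroup E] [InnerProductSpace 𝕜 E]
  {F : Type*} [NormedAddCommGroup F] [InnerProductSpace 𝕜 F] {G : Type*} [Group G]

/-- The vectors fixed by `K`. -/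
def fixK (σ : G →* (E ≃ₗᵢ[𝕜] E)) (K : Subgroup G) : Submodule 𝕜 E where
  carrier := {x | ∀ k ∈ K, σ k x = x}
  add_mem' := fun {x y} hx hy k hk => by rw [map_add, hx k hk, hy k hk]
  zero_mem' := fun k _ => map_zero _
  smul_mem' := fun c x hx k hk => by rw [map_smul, hx k hk]

theorem mem_fixK {σ : G →* (E ≃ₗᵢ[𝕜] E)} {K : Subgroup G} {x : E} : x ∈ fixK σ K ↔ ∀ k ∈ K, σ k x = x := Iff.rfl

theorem isClosed_fixK (σ : G →* (E ≃ₗᵢ[𝕜] E)) (K : Subgroup G) : IsClosed (fixK σ K : Set E) := by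
  have h : (fixK σ K : Set E) = ⋂ k ∈ K, {x | σ k x = x} := by
    ext x
    simp [mem_fixK]
  rw [h]
  refine isClosed_biInter fun k _ => isClosed_eq (σ k).continuous continuous_id

instance [CompleteSpace E] (σ : G →* (E ≃ₗᵢ[𝕜] E)) (K : Subgroup G) : CompleteSpace (fixK σ K) :=
  (isClosed_fixK σ K).completeSpace_coe

variable [CompleteSpace E] [CompleteSpace F]

/-- The projection onto the vectors fixed by `K`. -/
noncomputable def PK (σ : G →* (E ≃ₗᵢ[𝕜] E)) (K : Subgroup G) : E →L[𝕜] E := (fixK σ K).starProjection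

theorem PK_mem (σ : G →* (E ≃ₗᵢ[𝕜] E)) (K : Subgroup G) (x : E) : PK σ K x ∈ fixK σ K :=
  Submodule.starProjection_apply_mem _ _

theorem PK_fix {σ : G →* (E ≃ₗᵢ[𝕜] E)} {K : Subgroup G} {x : E} (hx : x ∈ fixK σ K) : PK σ K x = x :=
  (Submodule.starProjection_eq_self_iff).2 hx

theorem PK_inner (σ : G →* (E ≃ₗᵢ[𝕜] E)) (K : Subgroup G) (x y : E) :
    inner 𝕜 (PK σ K x) y = inner 𝕜 x (PK σ K y) :=
  Submodule.inner_starProjection_left_eq_right _ _ _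

theorem PK_norm (σ : G →* (E ≃ₗᵢ[𝕜] E)) (K : Subgroup G) (x : E) : ‖PK σ K x‖ ≤ ‖x‖ := by
  have := Submodule.starProjection_norm_le (fixK σ K)
  calc ‖PK σ K x‖ ≤ ‖(fixK σ K).starProjection‖ * ‖x‖ := ContinuousLinearMap.le_opNorm _ _
    _ ≤ 1 * ‖x‖ := by gcongr
    _ = ‖x‖ := one_mul _

/-- `P x` is the unique fixed vector with the same inner products with fixed vectors. -/
theorem PK_unique {σ : G →* (E ≃ₗᵢ[𝕜] E)} {K : Subgroup G} {x z : E} (hz : z ∈ fixK σ K)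
    (h : ∀ y ∈ fixK σ K, inner 𝕜 y x = inner 𝕜 y z) : PK σ K x = z := by
  have h1 : ∀ y ∈ fixK σ K, inner 𝕜 y (PK σ K x - z) = 0 := by
    intro y hy
    rw [inner_sub_right, ← PK_inner, PK_fix hy, h y hy, sub_self]
  have h2 := h1 _ ((fixK σ K).sub_mem (PK_mem σ K x) hz)
  exact sub_eq_zero.1 (inner_self_eq_zero.1 h2)

omit [CompleteSpace E] in
theorem mul_app (σ : G →* (E ≃ₗᵢ[𝕜] E)) (g h : G) (x : E) : σ (g * h) x = σ g (σ h x) := by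
  rw [map_mul]
  rfl

omit [CompleteSpace E] in
theorem inner_map (σ : G →* (E ≃ₗᵢ[𝕜] E)) (g : G) (x y : E) : inner 𝕜 (σ g x) y = inner 𝕜 x (σ g⁻¹ y) := by
  have h : σ g (σ g⁻¹ y) = y := by
    rw [← mul_app, mul_inv_cancel, map_one]
    rfl
  conv_lhs => rw [← h]
  exact (σ g).inner_map_map x _

theorem PK_sigma {σ : G →* (E ≃ₗᵢ[𝕜] E)} {K : Subgroup G} {k : G} (hk : k ∈ K) (x : E) :
    PK σ K (σ k x) = PK σ K x := by
  refine PK_unique (PK_mem σ K x) fun y hy => ?_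
  have h1 : inner 𝕜 y (σ k x) = inner 𝕜 y x := by
    rw [← inner_conj_symm, inner_map, hy _ (K.inv_mem hk), inner_conj_symm]
  rw [h1, ← PK_inner, PK_fix hy]

/-- The projections commute with equivariant maps. -/
theorem PK_map {σ : G →* (E ≃ₗᵢ[𝕜] E)} {τ : G →* (F ≃ₗᵢ[𝕜] F)} {K : Subgroup G} (T : E →L[𝕜] F)
    (hT : ∀ k ∈ K, ∀ x, T (σ k x) = τ k (T x)) (x : E) : PK τ K (T x) = T (PK σ K x) := by
  refine PK_unique (fun k hk => ?_) fun y hy => ?_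
  · rw [← hT k hk, PK_mem σ K x k hk]
  · have h1 : ContinuousLinearMap.adjoint T y ∈ fixK σ K := by
      intro k hk
      refine ext_inner_right 𝕜 fun z => ?_
      rw [inner_map, ContinuousLinearMap.adjoint_inner_left, ContinuousLinearMap.adjoint_inner_left,
        hT _ (K.inv_mem hk), ← inner_map, hy k hk]
    rw [← ContinuousLinearMap.adjoint_inner_left, ← ContinuousLinearMap.adjoint_inner_left, ← PK_inner, PK_fix h1]

/-- Closed convex cones. -/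
structure IsCone (𝕜 : Type*) [RCLike 𝕜] {E : Type*} [NormedAddCommGroup E] [InnerProductSpace 𝕜 E] (C : Set E) : Prop where
  closed : IsClosed C
  comb : ∀ a b : ℝ, 0 ≤ a → 0 ≤ b → ∀ x ∈ C, ∀ y ∈ C, (a : 𝕜) • x + (b : 𝕜) • y ∈ C

/-- The projection onto the fixed vectors preserves closed convex cones which are invariant under the group (Alaoglu - Birkhoff). -/
theorem PK_cone {σ : G →* (E ≃ₗᵢ[𝕜] E)} {K : Subgroup G} {C : Set E} (hC : IsCone 𝕜 C)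
    (hK : ∀ k ∈ K, ∀ x ∈ C, σ k x ∈ C) {x : E} (hx : x ∈ C) : PK σ K x ∈ C := by
  let : NormedSpace ℝ E := NormedSpace.restrictScalars ℝ 𝕜 E
  let : InnerProductSpace ℝ E := InnerProductSpace.rclikeToReal 𝕜 E
  have hsm : ∀ (r : ℝ) (z : E), r • z = (r : 𝕜) • z := fun r z => rfl
  set D : Set E := C ∩ {z | PK σ K z = PK σ K x} with hD
  have hDc : IsClosed D := hC.closed.inter (isClosed_eq (PK σ K).continuous continuous_const)
  have hconv : Convex ℝ D := by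
    intro z hz w hw a b ha hb hab
    refine ⟨?_, ?_⟩
    · rw [hsm, hsm]
      exact hC.comb a b ha hb z hz.1 w hw.1
    · change PK σ K (a • z + b • w) = PK σ K x
      have hz2 : PK σ K z = PK σ K x := hz.2
      have hw2 : PK σ K w = PK σ K x := hw.2
      rw [hsm, hsm, map_add, map_smul, map_smul, hz2, hw2, ← add_smul, ← ofReal_add, hab, ofReal_one, one_smul]
  obtain ⟨z0, hz0, hmin⟩ := exists_norm_eq_iInf_of_complete_convex (K := D) ⟨x, hx, rfl⟩ hDc.isComplete hconv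
    (PK σ K x)
  have hle : ∀ w ∈ D, ‖PK σ K x - z0‖ ≤ ‖PK σ K x - w‖ := by
    intro w hw
    rw [hmin]
    exact ciInf_le ⟨0, by rintro _ ⟨w, rfl⟩; exact norm_nonneg _⟩ (⟨w, hw⟩ : D)
  have hfix : z0 ∈ fixK σ K := by
    intro k hk
    have hkz : σ k z0 ∈ D := by
      refine ⟨hK k hk z0 hz0.1, ?_⟩
      change PK σ K (σ k z0) = PK σ K x
      rw [PK_sigma hk]
      exact hz0.2
    have hn : ‖PK σ K x - σ k z0‖ = ‖PK σ K x - z0‖ := by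
      conv_lhs => rw [← PK_mem σ K x k hk, ← map_sub, (σ k).norm_map]
    have hm := hconv hz0 hkz (a := 2⁻¹) (b := 2⁻¹) (by norm_num) (by norm_num) (by norm_num)
    have h1 := hle _ hm
    have h2 := parallelogram_law_with_norm 𝕜 (PK σ K x - z0) (PK σ K x - σ k z0)
    have h3 : (PK σ K x - z0) + (PK σ K x - σ k z0) =
        ((2 : ℝ) : 𝕜) • (PK σ K x - ((2⁻¹ : ℝ) • z0 + (2⁻¹ : ℝ) • σ k z0)) := by
      rw [hsm, hsm, smul_sub, smul_add, smul_smul, smul_smul, ← ofReal_mul]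
      norm_num
      rw [two_smul]
      abel
    rw [h3, norm_smul, hn, norm_ofReal] at h2
    have h4 : |(2 : ℝ)| = 2 := by norm_num
    rw [h4] at h2
    have h5 : ‖PK σ K x - z0 - (PK σ K x - σ k z0)‖ = 0 := by
      have h6 : ‖PK σ K x - z0 - (PK σ K x - σ k z0)‖ ^ 2 ≤ 0 := by
        have h7 : 0 ≤ ‖PK σ K x - z0‖ := norm_nonneg _
        nlinarith [mul_self_le_mul_self h7 h1]
      have h8 : 0 ≤ ‖PK σ K x - z0 - (PK σ K x - σ k z0)‖ := norm_nonneg _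
      nlinarith
    have h6 := norm_eq_zero.1 h5
    have h7 : σ k z0 - z0 = 0 := by
      rw [← h6]
      abel
    exact sub_eq_zero.1 h7
  have h1 : PK σ K z0 = PK σ K x := hz0.2
  rw [← h1, PK_fix hfix]
  exact hz0.1

/-- The sphere average `P σ(g) P`. -/
noncomputable def AK (σ : G →* (E ≃ₗᵢ[𝕜] E)) (K : Subgroup G) (g : G) : E →L[𝕜] E :=
  (PK σ K).comp (((σ g : E ≃ₗᵢ[𝕜] E) : E →L[𝕜] E).comp (PK σ K))

theorem AK_apply (σ : G →* (E ≃ₗᵢ[𝕜] E)) (K : Subgroup G) (g : G) (x : E) :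
    AK σ K g x = PK σ K (σ g (PK σ K x)) := rfl

theorem AK_inner (σ : G →* (E ≃ₗᵢ[𝕜] E)) (K : Subgroup G) (g : G) (x y : E) :
    inner 𝕜 (AK σ K g x) y = inner 𝕜 (σ g (PK σ K x)) (PK σ K y) := by
  rw [AK_apply, PK_inner]

omit [CompleteSpace E] in
theorem inv_double {σ : G →* (E ≃ₗᵢ[𝕜] E)} {K : Subgroup G} {g : G} (hg : ∃ k ∈ K, ∃ k' ∈ K, g⁻¹ = k * g * k')
    {x y : E} (hx : x ∈ fixK σ K) (hy : y ∈ fixK σ K) : inner 𝕜 (σ g x) y = inner 𝕜 x (σ g y) := by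
  obtain ⟨k, hk, k', hk', h⟩ := hg
  rw [inner_map, h, mul_app, mul_app, hy k' hk', ← inv_inv k, ← inner_map, hx _ (K.inv_mem hk)]

theorem AK_symm {σ : G →* (E ≃ₗᵢ[𝕜] E)} {K : Subgroup G} {g : G} (hg : ∃ k ∈ K, ∃ k' ∈ K, g⁻¹ = k * g * k')
    (x y : E) : inner 𝕜 (AK σ K g x) y = inner 𝕜 x (AK σ K g y) := by
  rw [AK_inner, inv_double hg (PK_mem σ K x) (PK_mem σ K y), AK_apply, ← PK_inner]

theorem AK_norm (σ : G →* (E ≃ₗᵢ[𝕜] E)) (K : Subgroup G) (g : G) (x : E) : ‖AK σ K g x‖ ≤ ‖x‖ := by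
  rw [AK_apply]
  calc ‖PK σ K (σ g (PK σ K x))‖ ≤ ‖σ g (PK σ K x)‖ := PK_norm _ _ _
    _ = ‖PK σ K x‖ := (σ g).norm_map _
    _ ≤ ‖x‖ := PK_norm _ _ _

theorem AK_cone {σ : G →* (E ≃ₗᵢ[𝕜] E)} {K : Subgroup G} {g : G} {C : Set E} (hC : IsCone 𝕜 C)
    (hK : ∀ k ∈ K, ∀ x ∈ C, σ k x ∈ C) (hg : ∀ x ∈ C, σ g x ∈ C) {x : E} (hx : x ∈ C) : AK σ K g x ∈ C :=
  PK_cone hC hK (hg _ (PK_cone hC hK hx))

/-- The top eigenvector of a sphere average. -/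
theorem exists_top {σ : G →* (E ≃ₗᵢ[𝕜] E)} {K : Subgroup G} {g : G} (hg : ∃ k ∈ K, ∃ k' ∈ K, g⁻¹ = k * g * k')
    {κ : ℝ} (hκ0 : 0 ≤ κ) {y : E} (hy : ‖y‖ = 1) (hyK : ∀ k ∈ K, σ k y = y)
    (hgap : ∀ x, (∀ k ∈ K, σ k x = x) → inner 𝕜 y x = 0 → re (inner 𝕜 (σ g x) x) ≤ κ * ‖x‖ ^ 2)
    (hlt : κ < re (inner 𝕜 (σ g y) y)) :
    ∃ (v : E) (θ r : ℝ), ‖v‖ = 1 ∧ (∀ k ∈ K, σ k v = v) ∧ re (inner 𝕜 (σ g y) y) ≤ θ ∧ θ ≤ 1 ∧
      (∀ x, (∀ k ∈ K, σ k x = x) → inner 𝕜 x (σ g v) = (θ : 𝕜) * inner 𝕜 x v) ∧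
      (∀ x, (∀ k ∈ K, σ k x = x) → inner 𝕜 v x = 0 → re (inner 𝕜 (σ g x) x) ≤ κ * ‖x‖ ^ 2) ∧
      0 < r ∧ r ≤ 1 ∧ inner 𝕜 v y = (r : 𝕜) ∧ re (inner 𝕜 (σ g y) y) - κ ≤ (θ - κ) * r ^ 2 ∧
      ∀ C : Set E, IsCone 𝕜 C → (∀ k ∈ K, ∀ x ∈ C, σ k x ∈ C) → (∀ x ∈ C, σ g x ∈ C) → y ∈ C → v ∈ C := by
  have hA := AK_symm (σ := σ) (K := K) (g := g) hg
  have hyf : y ∈ fixK σ K := hyK
  have hAy : re (inner 𝕜 (AK σ K g y) y) = re (inner 𝕜 (σ g y) y) := by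
    rw [AK_inner, PK_fix hyf]
  have hκ : ∀ x, inner 𝕜 y x = 0 → re (inner 𝕜 (AK σ K g x) x) ≤ κ * ‖x‖ ^ 2 := by
    intro x hx
    rw [AK_inner]
    have h1 : inner 𝕜 y (PK σ K x) = 0 := by rw [← PK_inner, PK_fix hyf, hx]
    refine (hgap _ (PK_mem σ K x) h1).trans ?_
    have := PK_norm σ K x
    gcongr
  obtain ⟨v0, θ, hv0, hyθ, hAv0, hall⟩ := exists_max hA hy hκ (by rw [hAy]; exact hlt)
  rw [hAy] at hyθ
  have hκθ : κ < θ := lt_of_lt_of_le hlt hyθ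
  have hθ0 : 0 < θ := lt_of_le_of_lt hκ0 hκθ
  obtain ⟨hne, hgap0⟩ := gap_of_top hA hκ hv0 hAv0 hκθ
  -- normalize the phase
  set c : 𝕜 := inner 𝕜 v0 y with hc
  have hcn : 0 < ‖c‖ := norm_pos_iff.2 hne
  set v : E := (((‖c‖⁻¹ : ℝ) : 𝕜) * c) • v0 with hv
  have hphase : ‖((‖c‖⁻¹ : ℝ) : 𝕜) * c‖ = 1 := by
    rw [norm_mul, norm_ofReal, abs_of_pos (inv_pos.2 hcn), inv_mul_cancel₀ hcn.ne']
  have hvn : ‖v‖ = 1 := by rw [hv, norm_smul, hphase, hv0, one_mul]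
  have hvy : inner 𝕜 v y = ((‖c‖ : ℝ) : 𝕜) := by
    rw [hv, inner_smul_left, ← hc, map_mul, conj_ofReal, mul_assoc, RCLike.conj_mul, ← ofReal_pow, ← ofReal_mul]
    congr 1
    field_simp
  have hAv : AK σ K g v = (θ : 𝕜) • v := by
    rw [hv, map_smul, hAv0, smul_comm]
  have hgapv : ∀ x, inner 𝕜 v x = 0 → re (inner 𝕜 (AK σ K g x) x) ≤ κ * ‖x‖ ^ 2 :=
    (gap_of_top hA hκ hvn hAv hκθ).2
  have hvf : v ∈ fixK σ K := by
    have h1 : v = ((θ⁻¹ : ℝ) : 𝕜) • AK σ K g v := by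
      rw [hAv, smul_smul, ← ofReal_mul, inv_mul_cancel₀ hθ0.ne', ofReal_one, one_smul]
    rw [h1]
    exact (fixK σ K).smul_mem _ (PK_mem _ _ _)
  have hθ1 : θ ≤ 1 := by
    have h1 := AK_norm σ K g v
    rw [hAv, norm_smul, hvn, norm_ofReal, mul_one, abs_of_pos hθ0] at h1
    exact h1
  have hr1 : ‖c‖ ≤ 1 := by
    calc ‖c‖ ≤ ‖v0‖ * ‖y‖ := norm_inner_le_norm _ _
      _ = 1 := by rw [hv0, hy, one_mul]
  refine ⟨v, θ, ‖c‖, hvn, hvf, hyθ, hθ1, ?_, ?_, hcn, hr1, hvy, ?_, ?_⟩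
  · intro x hx
    have hxf : x ∈ fixK σ K := hx
    have h1 : inner 𝕜 x (AK σ K g v) = inner 𝕜 x (σ g v) := by
      rw [AK_apply, ← PK_inner, PK_fix hxf, PK_fix hvf]
    rw [← h1, hAv, inner_smul_right]
  · intro x hx hvx
    have hxf : x ∈ fixK σ K := hx
    have h1 := hgapv x hvx
    rwa [AK_inner, PK_fix hxf] at h1
  · have h1 := overlap hA hy hvn hAv hgapv
    rw [hAy, hvy, norm_ofReal, abs_of_pos hcn] at h1
    exact h1
  · intro C hC hKC hgC hyC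
    have h1 := lazy_tendsto hA (AK_norm σ K g) hκ0 hvn hκθ hAv hgapv y
    have hpow : ∀ n : ℕ, (lazy (AK σ K g) ^ n) y ∈ C := by
      intro n
      induction n with
      | zero => exact hyC
      | succ n ih =>
        rw [pow_succ']
        change lazy (AK σ K g) ((lazy (AK σ K g) ^ n) y) ∈ C
        rw [lazy_apply, smul_add]
        exact hC.comb _ _ (by norm_num) (by norm_num) _ ih _ (AK_cone hC hKC hgC ih)
    have h2 : (inner 𝕜 v y : 𝕜) • v ∈ C := by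
      refine hC.closed.mem_of_tendsto h1 (Eventually.of_forall fun n => ?_)
      have h3 := hC.comb ((((1 + θ) / 2) ^ n)⁻¹) 0 (by positivity) le_rfl _ (hpow n) _ (hpow n)
      rwa [ofReal_zero, zero_smul, add_zero] at h3
    have h3 := hC.comb (‖c‖⁻¹) 0 (by positivity) le_rfl _ h2 _ h2
    rw [ofReal_zero, zero_smul, add_zero, hvy, smul_smul, ← ofReal_mul, inv_mul_cancel₀ hcn.ne', ofReal_one,
      one_smul] at h3
    exact h3

end Pool.Agent.Helper96.FP
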