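import Mathlib

/-!
# Project FP: extension of maps from total sets
-/

set_option autoImplicit false

open Filter Topology

namespace Pool.Agent.Helper96.FP

variable {𝕜 : Type*} [RCLike 𝕜] {E : Type*} [NormedAddCommGroup E] [InnerProductSpace 𝕜 E]
  {F : Type*} [NormedAddCommGroup F] [InnerProductSpace 𝕜 F] {Y : Type*}

/-- A total family. -/
def Total (𝕜 : Type*) [RCLike 𝕜] {E : Type*} [NormedAddCommGroup E] [InnerProductSpace 𝕜 E] {Y : Type*} (e : Y → E) : Prop :=
  (Submodule.span 𝕜 (Set.range e)).topologicalClosure = ⊤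

theorem Total.dense {e : Y → E} (he : Total 𝕜 e) : Dense (Submodule.span 𝕜 (Set.range e) : Set E) :=
  (Submodule.dense_iff_topologicalClosure_eq_top).2 he

/-- Induction principle: a closed submodule which contains a total family is everything. -/
theorem Total.induction {e : Y → E} (he : Total 𝕜 e) {p : E → Prop} (hc : IsClosed {x | p x}) (h0 : ∀ y, p (e y))
    (hz : p 0) (hadd : ∀ x y, p x → p y → p (x + y)) (hsmul : ∀ (c : 𝕜) x, p x → p (c • x)) (x : E) : p x := by
  have h1 : (Submodule.span 𝕜 (Set.range e) : Set E) ⊆ {x | p x} := by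
    intro z hz'
    induction hz' using Submodule.span_induction with
    | mem z hz =>
      obtain ⟨y, rfl⟩ := hz
      exact h0 y
    | zero => exact hz
    | add x y _ _ hx hy => exact hadd x y hx hy
    | smul c x _ hx => exact hsmul c x hx
  have h2 : x ∈ closure (Submodule.span 𝕜 (Set.range e) : Set E) := he.dense x
  exact (closure_minimal h1 hc) h2

/-- Two continuous linear maps which agree on a total family are equal. -/
theorem Total.ext {e : Y → E} (he : Total 𝕜 e) {T S : E →L[𝕜] F} (h : ∀ y, T (e y) = S (e y)) : T = S := by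
  refine ContinuousLinearMap.ext fun x => ?_
  refine he.induction (p := fun x => T x = S x) (isClosed_eq T.continuous S.continuous) h (by simp)
    (fun x y hx hy => by simp only [map_add, hx, hy]) (fun c x hx => by simp only [map_smul, hx]) x

theorem Total.ext_inner {e : Y → E} (he : Total 𝕜 e) {x y : E} (h : ∀ z, inner 𝕜 (e z) x = inner 𝕜 (e z) y) : x = y := by
  have h1 : ∀ z : E, inner 𝕜 z x = inner 𝕜 z y := by
    intro z
    refine he.induction (p := fun z => inner 𝕜 z x = inner 𝕜 z y) (isClosed_eq (by fun_prop) (by fun_prop)) h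
      (by simp) (fun a b ha hb => by simp only [inner_add_left, ha, hb])
      (fun c a ha => by simp only [inner_smul_left, ha]) z
  exact ext_inner_left 𝕜 h1

/-- Extension of a bounded map from a total family. -/
theorem exists_clm [CompleteSpace F] {e : Y → E} {f : Y → F} (he : Total 𝕜 e) {C : ℝ} (hC : 0 ≤ C)
    (h : ∀ a : Y →₀ 𝕜, ‖a.sum fun y c => c • f y‖ ≤ C * ‖a.sum fun y c => c • e y‖) :
    ∃ T : E →L[𝕜] F, (∀ y, T (e y) = f y) ∧ ∀ x, ‖T x‖ ≤ C * ‖x‖ := by
  classical
  set Le : (Y →₀ 𝕜) →ₗ[𝕜] E := Finsupp.linearCombination 𝕜 e with hLe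
  set Lf : (Y →₀ 𝕜) →ₗ[𝕜] F := Finsupp.linearCombination 𝕜 f with hLf
  have hb : ∀ a, ‖Lf a‖ ≤ C * ‖Le a‖ := by
    intro a
    rw [hLe, hLf, Finsupp.linearCombination_apply, Finsupp.linearCombination_apply]
    exact h a
  have hker : LinearMap.ker Le ≤ LinearMap.ker Lf := by
    intro a ha
    rw [LinearMap.mem_ker] at ha ⊢
    have h1 := hb a
    rw [ha, norm_zero, mul_zero] at h1
    exact norm_le_zero_iff.1 h1
  set T0 : LinearMap.range Le →ₗ[𝕜] F := ((LinearMap.ker Le).liftQ Lf hker).comp Le.quotKerEquivRange.symm.toLinearMap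
    with hT0
  have hT0a : ∀ a, T0 ⟨Le a, LinearMap.mem_range_self Le a⟩ = Lf a := by
    intro a
    have h1 : Le.quotKerEquivRange.symm ⟨Le a, LinearMap.mem_range_self Le a⟩ = (LinearMap.ker Le).mkQ a := by
      rw [LinearEquiv.symm_apply_eq]
      rfl
    rw [hT0, LinearMap.comp_apply]
    change ((LinearMap.ker Le).liftQ Lf hker) (Le.quotKerEquivRange.symm _) = _
    rw [h1]
    rfl
  have hT0b : ∀ x, ‖T0 x‖ ≤ C * ‖x‖ := by
    rintro ⟨x, a, rfl⟩
    rw [hT0a]
    exact hb a
  set T1 : LinearMap.range Le →L[𝕜] F := T0.mkContinuous C hT0b with hT1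
  have hd : DenseRange ((LinearMap.range Le).subtypeL : LinearMap.range Le → E) := by
    have h1 : Set.range ((LinearMap.range Le).subtypeL : LinearMap.range Le → E) =
        (Submodule.span 𝕜 (Set.range e) : Set E) := by
      rw [hLe, Submodule.coe_subtypeL, Submodule.coe_subtype, Subtype.range_coe_subtype, ← Finsupp.range_linearCombination]
      rfl
    rw [DenseRange, h1]
    exact he.dense
  have hu : IsUniformInducing ((LinearMap.range Le).subtypeL : LinearMap.range Le → E) := isUniformInducing_val _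
  set T : E →L[𝕜] F := T1.extend (LinearMap.range Le).subtypeL with hT
  have hTe : ∀ x : LinearMap.range Le, T x = T1 x := fun x => ContinuousLinearMap.extend_eq T1 hd hu x
  refine ⟨T, fun y => ?_, fun x => ?_⟩
  · have h1 : Le (Finsupp.single y 1) = e y := by rw [hLe, Finsupp.linearCombination_single, one_smul]
    have h2 := hTe ⟨Le (Finsupp.single y 1), LinearMap.mem_range_self Le _⟩
    have h3 : T1 ⟨Le (Finsupp.single y 1), LinearMap.mem_range_self Le _⟩ = Lf (Finsupp.single y 1) := hT0a _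
    have h4 : Lf (Finsupp.single y 1) = f y := by rw [hLf, Finsupp.linearCombination_single, one_smul]
    rw [← h1]
    exact h2.trans (h3.trans h4)
  · have hcl : IsClosed {x : E | ‖T x‖ ≤ C * ‖x‖} := isClosed_le (by fun_prop) (by fun_prop)
    have hsub : Set.range ((LinearMap.range Le).subtypeL : LinearMap.range Le → E) ⊆ {x : E | ‖T x‖ ≤ C * ‖x‖} := by
      rintro _ ⟨x, rfl⟩
      change ‖T (x : E)‖ ≤ C * ‖(x : E)‖
      rw [hTe x]
      exact hT0b x
    exact closure_minimal hsub hcl (hd x)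

theorem sum_norm_sq (f : Y → F) (a : Y →₀ 𝕜) :
    ((‖a.sum fun y c => c • f y‖ ^ 2 : ℝ) : 𝕜) =
      a.sum fun y c => a.sum fun z d => (starRingEnd 𝕜) c * d * inner 𝕜 (f y) (f z) := by
  have h1 : ((‖a.sum fun y c => c • f y‖ ^ 2 : ℝ) : 𝕜) =
      inner 𝕜 (a.sum fun y c => c • f y) (a.sum fun y c => c • f y) := by
    rw [inner_self_eq_norm_sq_to_K]
    norm_cast
  rw [h1, Finsupp.sum_inner]
  refine Finsupp.sum_congr fun y _ => ?_
  rw [Finsupp.inner_sum]
  simp only [Finsupp.sum]
  refine Finset.sum_congr rfl fun z _ => ?_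
  rw [inner_smul_left, inner_smul_right, mul_assoc]

/-- A map from a total family which preserves inner products extends to a linear isometry. -/
theorem exists_isom [CompleteSpace F] {e : Y → E} {f : Y → F} (he : Total 𝕜 e)
    (h : ∀ y z, inner 𝕜 (f y) (f z) = inner 𝕜 (e y) (e z)) : ∃ T : E →ₗᵢ[𝕜] F, ∀ y, T (e y) = f y := by
  have hn : ∀ a : Y →₀ 𝕜, ‖a.sum fun y c => c • f y‖ = ‖a.sum fun y c => c • e y‖ := by
    intro a
    have h1 : ((‖a.sum fun y c => c • f y‖ ^ 2 : ℝ) : 𝕜) = ((‖a.sum fun y c => c • e y‖ ^ 2 : ℝ) : 𝕜) := by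
      rw [sum_norm_sq, sum_norm_sq]
      simp only [h]
    have h2 : ‖a.sum fun y c => c • f y‖ ^ 2 = ‖a.sum fun y c => c • e y‖ ^ 2 := by exact_mod_cast h1
    exact (sq_eq_sq₀ (norm_nonneg _) (norm_nonneg _)).1 h2
  obtain ⟨T, hT, hTb⟩ := exists_clm (𝕜 := 𝕜) (f := f) he zero_le_one (fun a => by rw [one_mul]; exact (hn a).le)
  have hin : ∀ x y, inner 𝕜 (T x) (T y) = inner 𝕜 x y := by
    intro x y
    refine he.induction (p := fun x => inner 𝕜 (T x) (T y) = inner 𝕜 x y)
      (isClosed_eq (by fun_prop) (by fun_prop)) (fun z => ?_) (by simp)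
      (fun a b ha hb => by simp only [map_add, inner_add_left, ha, hb])
      (fun c a ha => by simp only [map_smul, inner_smul_left, ha]) x
    refine he.induction (p := fun y => inner 𝕜 (T (e z)) (T y) = inner 𝕜 (e z) y)
      (isClosed_eq (by fun_prop) (by fun_prop)) (fun w => ?_) (by simp)
      (fun a b ha hb => by simp only [map_add, inner_add_right, ha, hb])
      (fun c a ha => by simp only [map_smul, inner_smul_right, ha]) y
    rw [hT, hT, h]
  exact ⟨T.toLinearMap.isometryOfInner hin, hT⟩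

/-- The isometry attached to a map from a total family. -/
noncomputable def extI [CompleteSpace F] {e : Y → E} (f : Y → F) (he : Total 𝕜 e)
    (h : ∀ y z, inner 𝕜 (f y) (f z) = inner 𝕜 (e y) (e z)) : E →ₗᵢ[𝕜] F := (exists_isom he h).choose

theorem extI_apply [CompleteSpace F] {e : Y → E} (f : Y → F) (he : Total 𝕜 e)
    (h : ∀ y z, inner 𝕜 (f y) (f z) = inner 𝕜 (e y) (e z)) (y : Y) : extI f he h (e y) = f y :=
  (exists_isom he h).choose_spec y

/-- A unitary from isometries which are inverse to each other on total families. -/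
noncomputable def mkU {e : Y → E} {Y' : Type*} {f : Y' → F} (he : Total 𝕜 e) (hf : Total 𝕜 f) (T : E →ₗᵢ[𝕜] F) (S : F →ₗᵢ[𝕜] E)
    (h1 : ∀ y, S (T (e y)) = e y) (h2 : ∀ y, T (S (f y)) = f y) : E ≃ₗᵢ[𝕜] F where
  toFun := T
  invFun := S
  left_inv := fun x => by
    have h := he.ext (T := (S.toContinuousLinearMap).comp T.toContinuousLinearMap) (S := ContinuousLinearMap.id 𝕜 E) h1
    exact DFunLike.congr_fun h x
  right_inv := fun x => by
    have h := hf.ext (T := (T.toContinuousLinearMap).comp S.toContinuousLinearMap) (S := ContinuousLinearMap.id 𝕜 F) h2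
    exact DFunLike.congr_fun h x
  map_add' := T.map_add
  map_smul' := T.map_smul
  norm_map' := T.norm_map

theorem mkU_apply {e : Y → E} {Y' : Type*} {f : Y' → F} (he : Total 𝕜 e) (hf : Total 𝕜 f) (T : E →ₗᵢ[𝕜] F)
    (S : F →ₗᵢ[𝕜] E) (h1 : ∀ y, S (T (e y)) = e y) (h2 : ∀ y, T (S (f y)) = f y) (x : E) : mkU he hf T S h1 h2 x = T x := rfl

theorem Total.extU {e : Y → E} (he : Total 𝕜 e) {T S : E ≃ₗᵢ[𝕜] F} (h : ∀ y, T (e y) = S (e y)) : T = S := by
  have h1 := he.ext (T := ((T : E ≃L[𝕜] F) : E →L[𝕜] F)) (S := ((S : E ≃L[𝕜] F) : E →L[𝕜] F)) h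
  ext x
  exact DFunLike.congr_fun h1 x

theorem Total.extI {e : Y → E} (he : Total 𝕜 e) {T S : E →ₗᵢ[𝕜] F} (h : ∀ y, T (e y) = S (e y)) : T = S := by
  have h1 := he.ext (T := T.toContinuousLinearMap) (S := S.toContinuousLinearMap) h
  ext x
  exact DFunLike.congr_fun h1 x

end Pool.Agent.Helper96.FP
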