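import Pool.Agent.Helper96.FP.Ext

/-!
# Project FP: the Fock space of a real Hilbert space

`Fk D` is a complex Hilbert space with a total family `Ex v`, `v ∈ D`, such that `⟨Ex v, Ex w⟩ = exp ⟨v, w⟩`.
-/

set_option autoImplicit false

open Filter Topology

namespace Pool.Agent.Helper96.FP

section PSD

variable {D : Type*} [NormedAddCommGroup D] [InnerProductSpace ℝ D]

theorem pow_fin_nonneg (s : Finset D) (n : ℕ) :
    ∀ c : D → ℝ, 0 ≤ ∑ x ∈ s, ∑ y ∈ s, c x * c y * (inner ℝ x y) ^ n := by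
  classical
  set S : Submodule ℝ D := Submodule.span ℝ (s : Set D) with hS
  have : FiniteDimensional ℝ S := FiniteDimensional.span_finset ℝ s
  set b := stdOrthonormalBasis ℝ S with hb
  have hin : ∀ x ∈ s, ∀ y ∈ s, inner ℝ x y = ∑ i, inner ℝ x (b i : D) * inner ℝ y (b i : D) := by
    intro x hx y hy
    have hx' : x ∈ S := Submodule.subset_span hx
    have hy' : y ∈ S := Submodule.subset_span hy
    have h := b.sum_inner_mul_inner (⟨x, hx'⟩ : S) (⟨y, hy'⟩ : S)
    rw [Submodule.coe_inner] at h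
    rw [← h]
    refine Finset.sum_congr rfl fun i _ => ?_
    rw [Submodule.coe_inner, Submodule.coe_inner, real_inner_comm (y : D)]
  induction n with
  | zero =>
    intro c
    have h : ∑ x ∈ s, ∑ y ∈ s, c x * c y * (inner ℝ x y) ^ 0 = (∑ x ∈ s, c x) ^ 2 := by
      rw [sq, Finset.sum_mul_sum]
      simp
    rw [h]
    exact sq_nonneg _
  | succ n ih =>
    intro c
    have h1 : ∀ x ∈ s, ∀ y ∈ s, c x * c y * (inner ℝ x y) ^ (n + 1) =
        ∑ i, (c x * inner ℝ x (b i : D)) * (c y * inner ℝ y (b i : D)) * (inner ℝ x y) ^ n := by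
      intro x hx y hy
      rw [pow_succ, ← Finset.sum_mul]
      have h2 : ∑ i, (c x * inner ℝ x (b i : D)) * (c y * inner ℝ y (b i : D)) = c x * c y * inner ℝ x y := by
        rw [hin x hx y hy, Finset.mul_sum]
        exact Finset.sum_congr rfl fun i _ => by ring
      rw [h2]
      ring
    have h : ∑ x ∈ s, ∑ y ∈ s, c x * c y * (inner ℝ x y) ^ (n + 1) =
        ∑ i, ∑ x ∈ s, ∑ y ∈ s, (c x * inner ℝ x (b i : D)) * (c y * inner ℝ y (b i : D)) * (inner ℝ x y) ^ n := by
      calc ∑ x ∈ s, ∑ y ∈ s, c x * c y * (inner ℝ x y) ^ (n + 1) = ∑ x ∈ s, ∑ y ∈ s, ∑ i,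
            (c x * inner ℝ x (b i : D)) * (c y * inner ℝ y (b i : D)) * (inner ℝ x y) ^ n :=
            Finset.sum_congr rfl fun x hx => Finset.sum_congr rfl fun y hy => h1 x hx y hy
        _ = ∑ x ∈ s, ∑ i, ∑ y ∈ s, (c x * inner ℝ x (b i : D)) * (c y * inner ℝ y (b i : D)) * (inner ℝ x y) ^ n :=
            Finset.sum_congr rfl fun x _ => Finset.sum_comm
        _ = _ := Finset.sum_comm
    rw [h]
    exact Finset.sum_nonneg fun i _ => ih fun x => c x * inner ℝ x (b i : D)

theorem pow_sum_nonneg (n : ℕ) (a : D →₀ ℝ) :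
    0 ≤ a.sum fun x c => a.sum fun y d => c * d * (inner ℝ x y) ^ n := pow_fin_nonneg a.support n a

/-- Kernels with nonnegative power series. -/
theorem series_nonneg {c : ℕ → ℝ} (hc : ∀ n, 0 ≤ c n) {g : ℝ → ℝ} (hg : ∀ x, HasSum (fun n => c n * x ^ n) (g x)) (a : D →₀ ℝ) :
    0 ≤ a.sum fun x s => a.sum fun y t => s * t * g (inner ℝ x y) := by
  have h1 : HasSum (fun n => a.sum fun x s => a.sum fun y t => s * t * (c n * (inner ℝ x y) ^ n))
      (a.sum fun x s => a.sum fun y t => s * t * g (inner ℝ x y)) := by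
    simp only [Finsupp.sum]
    apply hasSum_sum
    intro x _
    apply hasSum_sum
    intro y _
    exact (hg (inner ℝ x y)).mul_left _
  refine h1.nonneg fun n => ?_
  have h2 := mul_nonneg (hc n) (pow_sum_nonneg n a)
  convert h2 using 1
  simp only [Finsupp.sum, Finset.mul_sum]
  refine Finset.sum_congr rfl fun x _ => Finset.sum_congr rfl fun y _ => ?_
  ring

/-- Complex coefficients. -/
theorem series_nonneg_complex {c : ℕ → ℝ} (hc : ∀ n, 0 ≤ c n) {g : ℝ → ℝ} (hg : ∀ x, HasSum (fun n => c n * x ^ n) (g x))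
    (a : D →₀ ℂ) :
    0 ≤ (a.sum fun x s => a.sum fun y t => (starRingEnd ℂ) s * t * ((g (inner ℝ x y) : ℝ) : ℂ)).re := by
  have h1 := series_nonneg hc hg (a.mapRange Complex.re Complex.zero_re)
  have h2 := series_nonneg hc hg (a.mapRange Complex.im Complex.zero_im)
  have h3 : ∀ f : ℂ → ℝ, ∀ hf : f 0 = 0, ((a.mapRange f hf).sum fun x s => (a.mapRange f hf).sum fun y t =>
      s * t * g (inner ℝ x y)) = a.sum fun x s => a.sum fun y t => f s * f t * g (inner ℝ x y) := by
    intro f hf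
    rw [Finsupp.sum_mapRange_index]
    · refine Finsupp.sum_congr fun x _ => ?_
      rw [Finsupp.sum_mapRange_index]
      intro y
      simp
    · intro x
      simp [Finsupp.sum]
  rw [h3] at h1 h2
  have h4 : (a.sum fun x s => a.sum fun y t => (starRingEnd ℂ) s * t * ((g (inner ℝ x y) : ℝ) : ℂ)).re =
      (a.sum fun x s => a.sum fun y t => s.re * t.re * g (inner ℝ x y)) +
      a.sum fun x s => a.sum fun y t => s.im * t.im * g (inner ℝ x y) := by
    simp only [Finsupp.sum, Complex.re_sum, ← Finset.sum_add_distrib]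
    refine Finset.sum_congr rfl fun x _ => Finset.sum_congr rfl fun y _ => ?_
    simp only [Complex.mul_re, Complex.conj_re, Complex.conj_im, Complex.mul_im, Complex.ofReal_re, Complex.ofReal_im]
    ring
  rw [h4]
  exact add_nonneg h1 h2

theorem hasSum_exp (x : ℝ) : HasSum (fun n : ℕ => ((n.factorial : ℝ))⁻¹ * x ^ n) (Real.exp x) := by
  have h := NormedSpace.expSeries_div_hasSum_exp (𝔸 := ℝ) x
  rw [← Real.exp_eq_exp_ℝ] at h
  have h2 : (fun n : ℕ => ((n.factorial : ℝ))⁻¹ * x ^ n) = fun n : ℕ => x ^ n / (n.factorial : ℝ) := by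
    funext n
    rw [div_eq_inv_mul]
  rw [h2]
  exact h

end PSD

variable (D : Type) [NormedAddCommGroup D] [InnerProductSpace ℝ D]

/-- The kernel `exp ⟨v, w⟩`. -/
noncomputable def eK : Matrix D D (ℂ →L[ℂ] ℂ) := Matrix.of fun v w => ((Real.exp (inner ℝ v w) : ℝ) : ℂ) • ContinuousLinearMap.id ℂ ℂ

theorem eK_herm : (eK D).IsHermitian := by
  refine Matrix.ext fun v w => ?_
  rw [Matrix.conjTranspose_apply]
  simp only [eK, Matrix.of_apply]
  rw [star_smul, real_inner_comm]
  congr 1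
  · exact Complex.conj_ofReal _
  · exact star_one (ℂ →L[ℂ] ℂ)

open scoped ComplexOrder in
instance eK_psd : Fact (eK D).PosSemidef := by
  have key := (RKHS.posSemidef_tfae (K := eK D)).out 0 2
  refine ⟨key.2 ⟨eK_herm D, fun a => ?_⟩⟩
  have h := series_nonneg_complex (D := D) (fun n => by positivity) hasSum_exp a
  have e : (a.sum fun x w => a.sum fun x' w' => inner ℂ (eK D x' x w) w') =
      a.sum fun x s => a.sum fun y t => (starRingEnd ℂ) s * t * ((Real.exp (inner ℝ x y) : ℝ) : ℂ) := by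
    unfold Finsupp.sum
    apply Finset.sum_congr rfl
    intro x _
    apply Finset.sum_congr rfl
    intro y _
    simp only [eK, Matrix.of_apply]
    rw [real_inner_comm x y]
    change inner ℂ (((Real.exp (inner ℝ x y) : ℝ) : ℂ) • (a x)) (a y) = _
    rw [inner_smul_left, Complex.conj_ofReal]
    simp
    ring
  rw [e]
  exact h

/-- The Fock space. -/
def Fk : Type := RKHS.OfKernel (eK D)

noncomputable instance : NormedAddCommGroup (Fk D) := inferInstanceAs (NormedAddCommGroup (RKHS.OfKernel (eK D)))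
noncomputable instance : InnerProductSpace ℂ (Fk D) := inferInstanceAs (InnerProductSpace ℂ (RKHS.OfKernel (eK D)))
noncomputable instance : CompleteSpace (Fk D) := inferInstanceAs (CompleteSpace (RKHS.OfKernel (eK D)))
noncomputable instance : RKHS ℂ (Fk D) D ℂ := inferInstanceAs (RKHS ℂ (RKHS.OfKernel (eK D)) D ℂ)

variable {D}

/-- The exponential vectors. -/
noncomputable def Ex (v : D) : Fk D := RKHS.kerFun (Fk D) v (1 : ℂ)

theorem inner_Ex (v w : D) : inner ℂ (Ex v) (Ex w) = ((Real.exp (inner ℝ v w) : ℝ) : ℂ) := by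
  unfold Ex
  have h := RKHS.kernel_inner (H := Fk D) w v (1 : ℂ) (1 : ℂ)
  have h2 : RKHS.kernel (Fk D) = eK D := RKHS.OfKernel.kernel_ofKernel
  rw [h2] at h
  rw [← h, real_inner_comm]
  simp only [eK, Matrix.of_apply]
  change inner ℂ (((Real.exp (inner ℝ w v) : ℝ) : ℂ) • (1 : ℂ)) (1 : ℂ) = _
  rw [inner_smul_left, Complex.conj_ofReal]
  simp

theorem total_Ex : Total ℂ (Ex : D → Fk D) := by
  have h := RKHS.kerFun_dense (Fk D)
  unfold Total
  rw [← h]
  congr 1
  apply le_antisymm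
  · rw [Submodule.span_le]
    rintro _ ⟨v, rfl⟩
    exact Submodule.subset_span ⟨v, 1, rfl⟩
  · rw [Submodule.span_le]
    rintro _ ⟨v, c, rfl⟩
    have : RKHS.kerFun (Fk D) v c = c • Ex v := by
      unfold Ex
      rw [← map_smul]
      simp
    rw [this]
    exact Submodule.smul_mem _ _ (Submodule.subset_span ⟨v, rfl⟩)

theorem norm_Ex (v : D) : ‖Ex v‖ ^ 2 = Real.exp (‖v‖ ^ 2) := by
  have h := inner_self_eq_norm_sq_to_K (𝕜 := ℂ) (Ex v)
  rw [inner_Ex, real_inner_self_eq_norm_sq] at h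
  have h2 : ((Real.exp (‖v‖ ^ 2) : ℝ) : ℂ) = ((‖Ex v‖ ^ 2 : ℝ) : ℂ) := by
    rw [h]
    push_cast
    rfl
  exact_mod_cast h2.symm

end Pool.Agent.Helper96.FP
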