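import Pool.Agent.Helper96.FP.Fock

/-!
# Project FP: operators on the Fock space

`FkI u`: functoriality for isometries. `dU u c`: the unitary `Ex v ↦ exp (-‖c‖² / 2 - ⟨c, u v⟩) Ex (u v + c)`.
`piF lam c t`: the representation of a group attached to a representation `lam` on `D`, a cocycle `c` and `t ≥ 0`.
-/

set_option autoImplicit false

open Filter Topology

namespace Pool.Agent.Helper96.FP

variable {D : Type} [NormedAddCommGroup D] [InnerProductSpace ℝ D] {D' : Type} [NormedAddCommGroup D'] [InnerProductSpace ℝ D']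

/-- Functoriality for isometries. -/
noncomputable def FkI (u : D →ₗᵢ[ℝ] D') : Fk D →ₗᵢ[ℂ] Fk D' :=
  extI (fun v => Ex (u v)) total_Ex fun v w => by rw [inner_Ex, inner_Ex, u.inner_map_map]

theorem FkI_Ex (u : D →ₗᵢ[ℝ] D') (v : D) : FkI u (Ex v) = Ex (u v) := extI_apply _ _ _ v

/-- The vectors `exp (-‖c‖² / 2 - ⟨c, u v⟩) Ex (u v + c)`. -/
noncomputable def dV (u : D ≃ₗᵢ[ℝ] D) (c : D) (v : D) : Fk D :=
  ((Real.exp (-‖c‖ ^ 2 / 2 - inner ℝ c (u v)) : ℝ) : ℂ) • Ex (u v + c)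

theorem dV_inner (u : D ≃ₗᵢ[ℝ] D) (c : D) (v w : D) : inner ℂ (dV u c v) (dV u c w) = inner ℂ (Ex v) (Ex w) := by
  unfold dV
  rw [inner_smul_left, inner_smul_right, Complex.conj_ofReal, inner_Ex, inner_Ex, ← Complex.ofReal_mul,
    ← Complex.ofReal_mul, ← Real.exp_add, ← Real.exp_add]
  congr 2
  rw [inner_add_left, inner_add_right, inner_add_right, u.inner_map_map, real_inner_self_eq_norm_sq,
    real_inner_comm c (u v)]
  ring

/-- The isometry `Ex v ↦ dV u c v`. -/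
noncomputable def dI (u : D ≃ₗᵢ[ℝ] D) (c : D) : Fk D →ₗᵢ[ℂ] Fk D := extI (dV u c) total_Ex (dV_inner u c)

theorem dI_Ex (u : D ≃ₗᵢ[ℝ] D) (c v : D) : dI u c (Ex v) = dV u c v := extI_apply _ _ _ v

theorem dI_comp (u u' : D ≃ₗᵢ[ℝ] D) (c c' : D) (x : Fk D) : dI u c (dI u' c' x) = dI (u * u') (c + u c') x := by
  have h : ((dI u c).comp (dI u' c')) = dI (u * u') (c + u c') := by
    refine total_Ex.extI fun v => ?_
    change dI u c (dI u' c' (Ex v)) = _
    rw [dI_Ex, dI_Ex]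
    unfold dV
    rw [map_smul, dI_Ex]
    unfold dV
    rw [smul_smul, ← Complex.ofReal_mul, ← Real.exp_add]
    have e1 : (u * u') v = u (u' v) := rfl
    have e2 : u (u' v + c') + c = u (u' v) + (c + u c') := by rw [map_add]; abel
    rw [e1, e2]
    congr 3
    have e3 : ‖c + u c'‖ ^ 2 = ‖c‖ ^ 2 + 2 * inner ℝ c (u c') + ‖c'‖ ^ 2 := by
      rw [norm_add_sq_real, u.norm_map]
    rw [e3, map_add, inner_add_right, inner_add_left, u.inner_map_map]
    ring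
  exact DFunLike.congr_fun h x

theorem dI_one : dI (1 : D ≃ₗᵢ[ℝ] D) 0 = LinearIsometry.id := by
  refine total_Ex.extI fun v => ?_
  rw [dI_Ex]
  unfold dV
  simp

theorem inv_app (u : D ≃ₗᵢ[ℝ] D) (v : D) : u⁻¹ (u v) = v := u.symm_apply_apply v

theorem app_inv (u : D ≃ₗᵢ[ℝ] D) (v : D) : u (u⁻¹ v) = v := u.apply_symm_apply v

/-- The unitary `Ex v ↦ exp (-‖c‖² / 2 - ⟨c, u v⟩) Ex (u v + c)`. -/
noncomputable def dU (u : D ≃ₗᵢ[ℝ] D) (c : D) : Fk D ≃ₗᵢ[ℂ] Fk D :=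
  mkU total_Ex total_Ex (dI u c) (dI u⁻¹ (-(u⁻¹ c)))
    (fun v => by rw [dI_comp, inv_mul_cancel, neg_add_cancel, dI_one]; rfl)
    (fun v => by rw [dI_comp, mul_inv_cancel, map_neg, app_inv, add_neg_cancel, dI_one]; rfl)

theorem dU_apply (u : D ≃ₗᵢ[ℝ] D) (c : D) (x : Fk D) : dU u c x = dI u c x := rfl

theorem dU_Ex (u : D ≃ₗᵢ[ℝ] D) (c v : D) :
    dU u c (Ex v) = ((Real.exp (-‖c‖ ^ 2 / 2 - inner ℝ c (u v)) : ℝ) : ℂ) • Ex (u v + c) := dI_Ex u c v

theorem dU_mul (u u' : D ≃ₗᵢ[ℝ] D) (c c' : D) : dU u c * dU u' c' = dU (u * u') (c + u c') := by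
  refine LinearIsometryEquiv.ext fun x => ?_
  exact dI_comp u u' c c' x

theorem dU_one : dU (1 : D ≃ₗᵢ[ℝ] D) 0 = 1 := by
  refine LinearIsometryEquiv.ext fun x => ?_
  change dI 1 0 x = x
  rw [dI_one]
  rfl

/-- The vacuum. -/
noncomputable def Om : Fk D := Ex 0

theorem inner_Om (v : D) : inner ℂ (Om : Fk D) (Ex v) = 1 := by
  unfold Om
  rw [inner_Ex, inner_zero_left]
  simp

theorem norm_Om : ‖(Om : Fk D)‖ = 1 := by
  have h := norm_Ex (0 : D)
  rw [norm_zero, zero_pow two_ne_zero, Real.exp_zero] at h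
  have h0 := norm_nonneg (Ex (0 : D))
  have h2 : (‖Ex (0 : D)‖ - 1) * (‖Ex (0 : D)‖ + 1) = 0 := by nlinarith
  rcases mul_eq_zero.1 h2 with h3 | h3
  · change ‖Ex (0 : D)‖ = 1
    linarith
  · linarith

theorem dU_Om (u : D ≃ₗᵢ[ℝ] D) (c : D) : dU u c Om = ((Real.exp (-‖c‖ ^ 2 / 2) : ℝ) : ℂ) • Ex c := by
  unfold Om
  rw [dU_Ex, map_zero, inner_zero_right, sub_zero, zero_add]

theorem inner_dU_Om (u : D ≃ₗᵢ[ℝ] D) (c : D) :
    inner ℂ (Om : Fk D) (dU u c Om) = ((Real.exp (-‖c‖ ^ 2 / 2) : ℝ) : ℂ) := by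
  rw [dU_Om, inner_smul_right, inner_Om, mul_one]

section Rep

variable {G : Type*} [Group G]

/-- A cocycle for a representation. -/
structure IsCoc (lam : G →* (D ≃ₗᵢ[ℝ] D)) (c : G → D) : Prop where
  mul : ∀ g h, c (g * h) = c g + lam g (c h)

theorem IsCoc.one {lam : G →* (D ≃ₗᵢ[ℝ] D)} {c : G → D} (hc : IsCoc lam c) : c 1 = 0 := by
  have h := hc.mul 1 1
  rw [mul_one, map_one] at h
  have h2 : (1 : D ≃ₗᵢ[ℝ] D) (c 1) = c 1 := rfl
  rw [h2] at h
  have h3 := sub_eq_zero.2 h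
  have h4 : c 1 - (c 1 + c 1) = -c 1 := by abel
  rw [h4, neg_eq_zero] at h3
  exact h3

/-- The representation `g ↦ dU (lam g) (√t c g)`. -/
noncomputable def piF (lam : G →* (D ≃ₗᵢ[ℝ] D)) (c : G → D) (hc : IsCoc lam c) (t : ℝ) : G →* (Fk D ≃ₗᵢ[ℂ] Fk D) where
  toFun g := dU (lam g) (Real.sqrt t • c g)
  map_one' := by rw [hc.one, smul_zero, map_one, dU_one]
  map_mul' g h := by rw [dU_mul, map_mul, hc.mul, smul_add, map_smul]

variable {lam : G →* (D ≃ₗᵢ[ℝ] D)} {c : G → D} (hc : IsCoc lam c)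

theorem piF_apply (t : ℝ) (g : G) : piF lam c hc t g = dU (lam g) (Real.sqrt t • c g) := rfl

theorem inner_piF_Om {t : ℝ} (ht : 0 ≤ t) (g : G) :
    inner ℂ (Om : Fk D) (piF lam c hc t g Om) = ((Real.exp (-(t * ‖c g‖ ^ 2) / 2) : ℝ) : ℂ) := by
  rw [piF_apply, inner_dU_Om, norm_smul, mul_pow, Real.norm_eq_abs, sq_abs, Real.sq_sqrt ht]

theorem cont_Ex : Continuous (Ex : D → Fk D) := by
  rw [continuous_iff_continuousAt]
  intro v
  rw [ContinuousAt, tendsto_iff_norm_sub_tendsto_zero]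
  have h : ∀ w : D, ‖Ex w - Ex v‖ ^ 2 = Real.exp (‖w‖ ^ 2) - 2 * Real.exp (inner ℝ w v) + Real.exp (‖v‖ ^ 2) := by
    intro w
    rw [norm_sub_sq (𝕜 := ℂ), norm_Ex, norm_Ex, inner_Ex]
    rfl
  have h2 : Tendsto (fun w : D => ‖Ex w - Ex v‖ ^ 2) (𝓝 v) (𝓝 0) := by
    simp only [h]
    have h3 : Continuous fun w : D => Real.exp (‖w‖ ^ 2) - 2 * Real.exp (inner ℝ w v) + Real.exp (‖v‖ ^ 2) := by
      fun_prop
    have h4 := h3.tendsto v
    have h5 : Real.exp (‖v‖ ^ 2) - 2 * Real.exp (inner ℝ v v) + Real.exp (‖v‖ ^ 2) = 0 := by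
      rw [real_inner_self_eq_norm_sq]
      ring
    rwa [h5] at h4
  have h3 := (Real.continuous_sqrt.tendsto 0).comp h2
  rw [Real.sqrt_zero] at h3
  refine h3.congr fun w => ?_
  simp [Real.sqrt_sq (norm_nonneg _)]

/-- Pointwise convergence on a total family implies strong convergence, for isometries. -/
theorem tendsto_of_total {α : Type*} {l : Filter α} {E F Y : Type*} [NormedAddCommGroup E] [InnerProductSpace ℂ E]
    [NormedAddCommGroup F] [InnerProductSpace ℂ F] {e : Y → E} (he : Total ℂ e) {T : α → (E →ₗᵢ[ℂ] F)} {S : E →ₗᵢ[ℂ] F}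
    (h : ∀ y, Tendsto (fun a => T a (e y)) l (𝓝 (S (e y)))) (x : E) : Tendsto (fun a => T a x) l (𝓝 (S x)) := by
  refine he.induction (p := fun x => Tendsto (fun a => T a x) l (𝓝 (S x))) ?_ h (by simp [tendsto_const_nhds])
    (fun x y hx hy => by simpa using hx.add hy) (fun c x hx => by simpa using hx.const_smul c) x
  rw [← isSeqClosed_iff_isClosed]
  intro u x hu hx
  simp only [Set.mem_ofPred_eq] at hu ⊢
  rw [Metric.tendsto_nhds]
  intro ε hε
  obtain ⟨n, hn⟩ := (Metric.tendsto_atTop.1 hx (ε / 3) (by linarith))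
  have hn := hn n le_rfl
  have h1 := Metric.tendsto_nhds.1 (hu n) (ε / 3) (by linarith)
  filter_upwards [h1] with a ha
  have h2 : dist (T a x) (T a (u n)) < ε / 3 := by
    rw [(T a).isometry.dist_eq, dist_comm]
    exact hn
  have h3 : dist (S (u n)) (S x) < ε / 3 := by
    rw [S.isometry.dist_eq]
    exact hn
  calc dist (T a x) (S x) ≤ dist (T a x) (T a (u n)) + dist (T a (u n)) (S (u n)) + dist (S (u n)) (S x) :=
        dist_triangle4 _ _ _ _
    _ < ε := by linarith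

/-- Strong continuity of `dU`. -/
theorem dU_tendsto {α : Type*} {l : Filter α} {u : α → (D ≃ₗᵢ[ℝ] D)} {c : α → D} {u' : D ≃ₗᵢ[ℝ] D} {c' : D}
    (hu : ∀ v, Tendsto (fun a => u a v) l (𝓝 (u' v))) (hc : Tendsto c l (𝓝 c')) (x : Fk D) :
    Tendsto (fun a => dU (u a) (c a) x) l (𝓝 (dU u' c' x)) := by
  refine tendsto_of_total (T := fun a => dI (u a) (c a)) (S := dI u' c') total_Ex (fun v => ?_) x
  simp only [dI_Ex]
  unfold dV
  have h1 : Tendsto (fun a => Ex (u a v + c a)) l (𝓝 (Ex (u' v + c'))) :=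
    (cont_Ex.tendsto _).comp ((hu v).add hc)
  have h2 : Tendsto (fun a => ((Real.exp (-‖c a‖ ^ 2 / 2 - inner ℝ (c a) (u a v)) : ℝ) : ℂ)) l
      (𝓝 ((Real.exp (-‖c'‖ ^ 2 / 2 - inner ℝ c' (u' v)) : ℝ) : ℂ)) := by
    refine (Complex.continuous_ofReal.tendsto _).comp ((Real.continuous_exp.tendsto _).comp ?_)
    exact ((hc.norm.pow 2).neg.div_const 2).sub (hc.inner (hu v))
  exact h2.smul h1

/-- `pi_t → pi_0` strongly as `t → 0`. -/
theorem piF_tendsto_zero (g : G) (x : Fk D) : Tendsto (fun t : ℝ => piF lam c hc t g x) (𝓝 0) (𝓝 (piF lam c hc 0 g x)) := by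
  simp only [piF_apply]
  refine dU_tendsto (fun v => tendsto_const_nhds) ?_ x
  have h := (Real.continuous_sqrt.tendsto 0).smul_const (c g)
  exact h

theorem piF_cont [TopologicalSpace G] (hl : ∀ v, Continuous fun g => lam g v) (hcc : Continuous c) (t : ℝ) (x : Fk D) :
    Continuous fun g => piF lam c hc t g x := by
  rw [continuous_iff_continuousAt]
  intro g
  refine dU_tendsto (fun v => (hl v).tendsto g) ?_ x
  exact (hcc.tendsto g).const_smul _

end Rep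

end Pool.Agent.Helper96.FP
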