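import Pool.Agent.Helper96.FP.Fock2

/-!
# Project FP: tensor products of Fock spaces

`tens x y ∈ Fk (D × D')`, bilinear and isometric, `tens (Ex v) (Ex w) = Ex (v, w)`; `Pab a b : Fk (D × D) → Fk D`, `Ex (v, w) ↦ Ex (a v + b w)`.
-/

set_option autoImplicit false
set_option linter.unusedSectionVars false

open Filter Topology

namespace Pool.Agent.Helper96.FP

variable {D : Type} [NormedAddCommGroup D] [InnerProductSpace ℝ D] {D' : Type} [NormedAddCommGroup D'] [InnerProductSpace ℝ D']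

theorem clm_add {E F : Type*} [NormedAddCommGroup E] [NormedSpace ℂ E] [NormedAddCommGroup F] [NormedSpace ℂ F]
    (T S : E →L[ℂ] F) (x : E) : (T + S) x = T x + S x := rfl

theorem clm_smul {E F : Type*} [NormedAddCommGroup E] [NormedSpace ℂ E] [NormedAddCommGroup F] [NormedSpace ℂ F]
    (c : ℂ) (T : E →L[ℂ] F) (x : E) : (c • T) x = c • T x := rfl

/-- The Hilbert sum. -/
def DD (D D' : Type) : Type := WithLp 2 (D × D')

noncomputable instance : NormedAddCommGroup (DD D D') := inferInstanceAs (NormedAddCommGroup (WithLp 2 (D × D')))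

noncomputable instance : InnerProductSpace ℝ (DD D D') := inferInstanceAs (InnerProductSpace ℝ (WithLp 2 (D × D')))

/-- Pairs. -/
def pr (v : D) (w : D') : DD D D' := WithLp.toLp 2 (v, w)

theorem inner_pr (v v' : D) (w w' : D') : inner ℝ (pr v w) (pr v' w') = inner ℝ v v' + inner ℝ w w' := rfl

theorem pr_add (v v' : D) (w w' : D') : pr v w + pr v' w' = pr (v + v') (w + w') := rfl

theorem pr_smul (r : ℝ) (v : D) (w : D') : r • pr v w = pr (r • v) (r • w) := rfl

theorem pr_zero : pr (0 : D) (0 : D') = 0 := rfl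

theorem norm_pr (v : D) (w : D') : ‖pr v w‖ ^ 2 = ‖v‖ ^ 2 + ‖w‖ ^ 2 := WithLp.prod_norm_sq_eq_of_L2 _

/-- The product of two isometries. -/
noncomputable def prU (u : D ≃ₗᵢ[ℝ] D) (u' : D' ≃ₗᵢ[ℝ] D') : DD D D' ≃ₗᵢ[ℝ] DD D D' where
  toFun x := pr (u x.fst) (u' x.snd)
  invFun x := pr (u.symm x.fst) (u'.symm x.snd)
  left_inv x := by
    change pr (u.symm (u x.fst)) (u'.symm (u' x.snd)) = x
    rw [u.symm_apply_apply, u'.symm_apply_apply]
    rfl
  right_inv x := by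
    change pr (u (u.symm x.fst)) (u' (u'.symm x.snd)) = x
    rw [u.apply_symm_apply, u'.apply_symm_apply]
    rfl
  map_add' x y := by
    change pr (u (x.fst + y.fst)) (u' (x.snd + y.snd)) = pr (u x.fst) (u' x.snd) + pr (u y.fst) (u' y.snd)
    rw [map_add, map_add, pr_add]
  map_smul' r x := by
    change pr (u (r • x.fst)) (u' (r • x.snd)) = r • pr (u x.fst) (u' x.snd)
    rw [map_smul, map_smul, pr_smul]
  norm_map' x := by
    have h1 : ‖pr (u x.fst) (u' x.snd)‖ ^ 2 = ‖x‖ ^ 2 := by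
      rw [norm_pr, u.norm_map, u'.norm_map, ← norm_pr]
      rfl
    exact (sq_eq_sq₀ (norm_nonneg _) (norm_nonneg _)).1 h1

theorem prU_pr (u : D ≃ₗᵢ[ℝ] D) (u' : D' ≃ₗᵢ[ℝ] D') (v : D) (w : D') : prU u u' (pr v w) = pr (u v) (u' w) := rfl

theorem pr_surj (x : DD D D') : ∃ v w, x = pr v w := ⟨x.fst, x.snd, rfl⟩

theorem prU_mul (u v : D ≃ₗᵢ[ℝ] D) (u' v' : D' ≃ₗᵢ[ℝ] D') : prU u u' * prU v v' = prU (u * v) (u' * v') :=
  LinearIsometryEquiv.ext fun _ => rfl

theorem prU_one : prU (1 : D ≃ₗᵢ[ℝ] D) (1 : D' ≃ₗᵢ[ℝ] D') = 1 := LinearIsometryEquiv.ext fun _ => rfl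

theorem total_Ex_pr : Total ℂ fun p : D × D' => Ex (pr p.1 p.2) := by
  have h := total_Ex (D := DD D D')
  unfold Total at h ⊢
  have h2 : Set.range (fun p : D × D' => Ex (pr p.1 p.2)) = Set.range (Ex : DD D D' → _) := by
    ext x
    constructor
    · rintro ⟨p, rfl⟩
      exact ⟨_, rfl⟩
    · rintro ⟨y, rfl⟩
      exact ⟨(y.fst, y.snd), rfl⟩
  rw [h2]
  exact h

/-- The isometry `Ex v ↦ exp (-‖w‖² / 2) Ex (v, w)`. -/
noncomputable def tI (w : D') : Fk D →ₗᵢ[ℂ] Fk (DD D D') :=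
  extI (fun v => ((Real.exp (-‖w‖ ^ 2 / 2) : ℝ) : ℂ) • Ex (pr v w)) total_Ex fun v v' => by
    rw [inner_smul_left, inner_smul_right, Complex.conj_ofReal, inner_Ex, inner_Ex, ← Complex.ofReal_mul,
      ← Complex.ofReal_mul, ← Real.exp_add, ← Real.exp_add, inner_pr, real_inner_self_eq_norm_sq]
    congr 2
    ring

/-- The operator `Ex v ↦ Ex (v, w)`. -/
noncomputable def tR (w : D') : Fk D →L[ℂ] Fk (DD D D') :=
  ((Real.exp (‖w‖ ^ 2 / 2) : ℝ) : ℂ) • (tI w).toContinuousLinearMap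

theorem tR_Ex (v : D) (w : D') : tR w (Ex v) = Ex (pr v w) := by
  change ((Real.exp (‖w‖ ^ 2 / 2) : ℝ) : ℂ) • (tI w (Ex v)) = _
  unfold tI
  rw [extI_apply, smul_smul, ← Complex.ofReal_mul, ← Real.exp_add]
  have : ‖w‖ ^ 2 / 2 + -‖w‖ ^ 2 / 2 = 0 := by ring
  rw [this, Real.exp_zero, Complex.ofReal_one, one_smul]

theorem inner_tR (w w' : D') (x y : Fk D) : inner ℂ (tR w x) (tR w' y) = ((Real.exp (inner ℝ w w') : ℝ) : ℂ) * inner ℂ x y := by
  refine total_Ex.induction (p := fun x => inner ℂ (tR w x) (tR w' y) = ((Real.exp (inner ℝ w w') : ℝ) : ℂ) * inner ℂ x y)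
    (isClosed_eq (by fun_prop) (by fun_prop)) (fun v => ?_) (by simp)
    (fun a b ha hb => by simp only [map_add, inner_add_left, ha, hb, mul_add])
    (fun c a ha => by simp only [map_smul, inner_smul_left, ha]; ring) x
  refine total_Ex.induction (p := fun y => inner ℂ (tR w (Ex v)) (tR w' y) = ((Real.exp (inner ℝ w w') : ℝ) : ℂ) * inner ℂ (Ex v) y)
    (isClosed_eq (by fun_prop) (by fun_prop)) (fun v' => ?_) (by simp)
    (fun a b ha hb => by simp only [map_add, inner_add_right, ha, hb, mul_add])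
    (fun c a ha => by simp only [map_smul, inner_smul_right, ha]; ring) y
  rw [tR_Ex, tR_Ex, inner_Ex, inner_Ex, inner_pr, ← Complex.ofReal_mul, ← Real.exp_add, add_comm]

theorem exists_tens (x : Fk D) : ∃ T : Fk D' →L[ℂ] Fk (DD D D'), (∀ w, T (Ex w) = tR w x) ∧
    ∀ y, ‖T y‖ ≤ ‖x‖ * ‖y‖ := by
  refine exists_clm (𝕜 := ℂ) (f := fun w : D' => tR w x) total_Ex (norm_nonneg x) fun a => ?_
  have h1 : ((‖a.sum fun w c => c • tR w x‖ ^ 2 : ℝ) : ℂ) = (((‖x‖ * ‖a.sum fun w c => c • Ex w‖) ^ 2 : ℝ) : ℂ) := by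
    rw [mul_pow, Complex.ofReal_mul, ]
    have e1 := sum_norm_sq (𝕜 := ℂ) (fun w : D' => tR w x) a
    have e2 := sum_norm_sq (𝕜 := ℂ) (fun w : D' => Ex w) a
    refine e1.trans ?_
    rw [show ((‖a.sum fun w c => c • Ex w‖ ^ 2 : ℝ) : ℂ) = _ from e2]
    unfold Finsupp.sum
    rw [Finset.mul_sum]
    refine Finset.sum_congr rfl fun w _ => ?_
    rw [Finset.mul_sum]
    refine Finset.sum_congr rfl fun w' _ => ?_
    simp only
    rw [inner_tR, inner_Ex, inner_self_eq_norm_sq_to_K]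
    have e3 : ((‖x‖ ^ 2 : ℝ) : ℂ) = ((‖x‖ : ℝ) : ℂ) ^ 2 := Complex.ofReal_pow _ _
    rw [e3]
    change _ * (_ * ((‖x‖ : ℝ) : ℂ) ^ 2) = _
    ring
  have h2 : ‖a.sum fun w c => c • tR w x‖ ^ 2 = (‖x‖ * ‖a.sum fun w c => c • Ex w‖) ^ 2 := by exact_mod_cast h1
  exact ((sq_eq_sq₀ (norm_nonneg _) (by positivity)).1 h2).le

/-- The operator `y ↦ x ⊗ y`. -/
noncomputable def tS (x : Fk D) : Fk D' →L[ℂ] Fk (DD D D') := (exists_tens x).choose

theorem tS_Ex (x : Fk D) (w : D') : tS x (Ex w) = tR w x := (exists_tens x).choose_spec.1 w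

theorem tS_norm (x : Fk D) (y : Fk D') : ‖tS x y‖ ≤ ‖x‖ * ‖y‖ := (exists_tens x).choose_spec.2 y

/-- The tensor product. -/
noncomputable def tens : Fk D →L[ℂ] Fk D' →L[ℂ] Fk (DD D D') :=
  LinearMap.mkContinuous₂ (LinearMap.mk₂ ℂ (fun x y => tS x y)
    (fun x x' y => by
      have h : tS (D' := D') (x + x') = tS x + tS x' := total_Ex.ext fun w => by
        rw [clm_add, tS_Ex, tS_Ex, tS_Ex, map_add]
      rw [h]
      rfl)
    (fun c x y => by
      have h : tS (D' := D') (c • x) = c • tS x := total_Ex.ext fun w => by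
        rw [clm_smul, tS_Ex, tS_Ex, map_smul]
      rw [h]
      rfl)
    (fun x y y' => map_add _ _ _) (fun c x y => map_smul _ _ _)) 1 fun x y => by
      rw [one_mul]
      exact tS_norm x y

theorem tens_apply (x : Fk D) (y : Fk D') : tens x y = tS x y := rfl

theorem tens_Ex (v : D) (w : D') : tens (Ex v) (Ex w) = Ex (pr v w) := by rw [tens_apply, tS_Ex, tR_Ex]

theorem inner_tens (x x' : Fk D) (y y' : Fk D') : inner ℂ (tens x y) (tens x' y') = inner ℂ x x' * inner ℂ y y' := by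
  refine total_Ex.induction (p := fun y => inner ℂ (tens x y) (tens x' y') = inner ℂ x x' * inner ℂ y y')
    (isClosed_eq (by fun_prop) (by fun_prop)) (fun w => ?_) (by simp)
    (fun a b ha hb => by simp only [map_add, inner_add_left, ha, hb, mul_add])
    (fun c a ha => by simp only [map_smul, inner_smul_left, ha]; ring) y
  refine total_Ex.induction (p := fun y' => inner ℂ (tens x (Ex w)) (tens x' y') = inner ℂ x x' * inner ℂ (Ex w) y')
    (isClosed_eq (by fun_prop) (by fun_prop)) (fun w' => ?_) (by simp)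
    (fun a b ha hb => by simp only [map_add, inner_add_right, ha, hb, mul_add])
    (fun c a ha => by simp only [map_smul, inner_smul_right, ha]; ring) y'
  rw [tens_apply, tens_apply, tS_Ex, tS_Ex, inner_tR, inner_Ex, mul_comm]

theorem norm_tens (x : Fk D) (y : Fk D') : ‖tens x y‖ = ‖x‖ * ‖y‖ := by
  have h := inner_tens x x y y
  rw [inner_self_eq_norm_sq_to_K, inner_self_eq_norm_sq_to_K, inner_self_eq_norm_sq_to_K] at h
  have h2 : ‖tens x y‖ ^ 2 = (‖x‖ * ‖y‖) ^ 2 := by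
    rw [mul_pow]
    exact_mod_cast h
  exact (sq_eq_sq₀ (norm_nonneg _) (by positivity)).1 h2

theorem dU_tens (u : D ≃ₗᵢ[ℝ] D) (u' : D' ≃ₗᵢ[ℝ] D') (c : D) (c' : D') (x : Fk D) (y : Fk D') :
    dU (prU u u') (pr c c') (tens x y) = tens (dU u c x) (dU u' c' y) := by
  refine total_Ex.induction (p := fun x => dU (prU u u') (pr c c') (tens x y) = tens (dU u c x) (dU u' c' y))
    (isClosed_eq (by fun_prop) (by fun_prop)) (fun v => ?_) (by simp)
    (fun a b ha hb => by simp only [map_add, clm_add, ha, hb])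
    (fun r a ha => by simp only [map_smul, clm_smul, ha]) x
  refine total_Ex.induction (p := fun y => dU (prU u u') (pr c c') (tens (Ex v) y) = tens (dU u c (Ex v)) (dU u' c' y))
    (isClosed_eq (by fun_prop) (by fun_prop)) (fun w => ?_) (by simp)
    (fun a b ha hb => by simp only [map_add, ha, hb])
    (fun r a ha => by simp only [map_smul, ha]) y
  rw [tens_Ex, dU_Ex, dU_Ex, dU_Ex, map_smul, map_smul, clm_smul, tens_Ex, smul_smul, prU_pr, pr_add,
    ← Complex.ofReal_mul, ← Real.exp_add, inner_pr, norm_pr]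
  congr 3
  ring

/-- Functoriality for isometries, equivariance. -/
theorem FkI_dU (j : D →ₗᵢ[ℝ] D') {u : D ≃ₗᵢ[ℝ] D} {u' : D' ≃ₗᵢ[ℝ] D'} (h : ∀ v, j (u v) = u' (j v)) (c : D) (x : Fk D) :
    FkI j (dU u c x) = dU u' (j c) (FkI j x) := by
  refine total_Ex.induction (p := fun x => FkI j (dU u c x) = dU u' (j c) (FkI j x))
    (isClosed_eq (by fun_prop) (by fun_prop)) (fun v => ?_) (by simp)
    (fun a b ha hb => by simp only [map_add, ha, hb]) (fun r a ha => by simp only [map_smul, ha]) x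
  rw [dU_Ex, FkI_Ex, dU_Ex, map_smul, FkI_Ex, map_add, h, j.norm_map, ← h, j.inner_map_map]

/-- The isometry `v ↦ (a v, b v)`. -/
noncomputable def jab (a b : ℝ) (h : a ^ 2 + b ^ 2 = 1) : D →ₗᵢ[ℝ] DD D D where
  toFun v := pr (a • v) (b • v)
  map_add' v w := by rw [smul_add, smul_add, pr_add]
  map_smul' r v := by rw [RingHom.id_apply, pr_smul, smul_comm r a, smul_comm r b]
  norm_map' v := by
    have h1 : ‖pr (a • v) (b • v)‖ ^ 2 = ‖v‖ ^ 2 := by
      rw [norm_pr, norm_smul, norm_smul, mul_pow, mul_pow, Real.norm_eq_abs, Real.norm_eq_abs, sq_abs, sq_abs, ← add_mul, h,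
        one_mul]
    exact (sq_eq_sq₀ (norm_nonneg _) (norm_nonneg _)).1 h1

theorem jab_apply (a b : ℝ) (h : a ^ 2 + b ^ 2 = 1) (v : D) : jab a b h v = pr (a • v) (b • v) := rfl

/-- The coisometry `Ex (v, w) ↦ Ex (a v + b w)`. -/
noncomputable def Pab (a b : ℝ) (h : a ^ 2 + b ^ 2 = 1) : Fk (DD D D) →L[ℂ] Fk D :=
  ContinuousLinearMap.adjoint (FkI (jab a b h)).toContinuousLinearMap

theorem inner_Pab (a b : ℝ) (h : a ^ 2 + b ^ 2 = 1) (x : Fk (DD D D)) (y : Fk D) :
    inner ℂ (Pab a b h x) y = inner ℂ x (FkI (jab a b h) y) := ContinuousLinearMap.adjoint_inner_left _ _ _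

theorem inner_Pab_right (a b : ℝ) (h : a ^ 2 + b ^ 2 = 1) (x : Fk (DD D D)) (y : Fk D) :
    inner ℂ y (Pab a b h x) = inner ℂ (FkI (jab a b h) y) x := ContinuousLinearMap.adjoint_inner_right _ _ _

theorem Pab_Ex (a b : ℝ) (h : a ^ 2 + b ^ 2 = 1) (v w : D) : Pab a b h (Ex (pr v w)) = Ex (a • v + b • w) := by
  refine total_Ex.ext_inner (𝕜 := ℂ) fun z => ?_
  rw [inner_Pab_right, FkI_Ex, inner_Ex, inner_Ex, jab_apply, inner_pr, inner_add_right, inner_smul_left, inner_smul_left,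
    inner_smul_right, inner_smul_right]
  rfl

theorem Pab_FkI (a b : ℝ) (h : a ^ 2 + b ^ 2 = 1) (x : Fk D) : Pab a b h (FkI (jab a b h) x) = x := by
  refine total_Ex.ext_inner (𝕜 := ℂ) fun z => ?_
  rw [inner_Pab_right]
  exact (FkI (jab a b h)).inner_map_map _ _

theorem norm_Pab (a b : ℝ) (h : a ^ 2 + b ^ 2 = 1) (x : Fk (DD D D)) : ‖Pab a b h x‖ ≤ ‖x‖ := by
  have h1 : ‖(FkI (jab a b h : D →ₗᵢ[ℝ] DD D D)).toContinuousLinearMap‖ ≤ 1 :=
    LinearIsometry.norm_toContinuousLinearMap_le _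
  calc ‖Pab a b h x‖ ≤ ‖Pab (D := D) a b h‖ * ‖x‖ := ContinuousLinearMap.le_opNorm _ _
    _ = ‖(FkI (jab (D := D) a b h)).toContinuousLinearMap‖ * ‖x‖ := by
        unfold Pab
        rw [LinearIsometryEquiv.norm_map]
    _ ≤ 1 * ‖x‖ := by gcongr
    _ = ‖x‖ := one_mul _

/-- `Pab` is an intertwiner. -/
theorem Pab_dU (a b : ℝ) (h : a ^ 2 + b ^ 2 = 1) (u : D ≃ₗᵢ[ℝ] D) (c : D) (x : Fk (DD D D)) :
    Pab a b h (dU (prU u u) (pr (a • c) (b • c)) x) = dU u c (Pab a b h x) := by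
  refine total_Ex_pr.induction (p := fun x => Pab a b h (dU (prU u u) (pr (a • c) (b • c)) x) = dU u c (Pab a b h x))
    (isClosed_eq (by fun_prop) (by fun_prop)) (fun p => ?_) (by simp)
    (fun a b ha hb => by simp only [map_add, ha, hb]) (fun r a ha => by simp only [map_smul, ha]) x
  obtain ⟨v, w⟩ := p
  simp only
  rw [dU_Ex, prU_pr, pr_add, map_smul, Pab_Ex, Pab_Ex, dU_Ex, norm_pr, inner_pr]
  have e1 : a • (u v + a • c) + b • (u w + b • c) = u (a • v + b • w) + c := by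
    have e2 : c = (a ^ 2 + b ^ 2) • c := by rw [h, one_smul]
    conv_rhs => rw [e2]
    rw [map_add, map_smul, map_smul]
    module
  rw [e1]
  congr 3
  rw [norm_smul, norm_smul, mul_pow, mul_pow, Real.norm_eq_abs, Real.norm_eq_abs, sq_abs, sq_abs, ← add_mul, h, one_mul,
    inner_smul_left, inner_smul_left, map_add, map_smul, map_smul, inner_add_right, inner_smul_right, inner_smul_right]
  simp

end Pool.Agent.Helper96.FP
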