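import Pool.Agent.Helper96.FP.Fock3

/-!
# Project FP: second quantization of contractions

`Gam r : Fk D → Fk D`, `Ex v ↦ Ex (r v)`, `0 ≤ r ≤ 1`: `‖Gam r x‖ ≤ r ‖x‖` on the complement of the vacuum. `Pab_tens_le`: the component of
`f ⊗ Ex w`, `f` orthogonal to the vacuum, in the first mode of a rotation.
-/

set_option autoImplicit false
set_option linter.unusedSectionVars false

open Filter Topology

namespace Pool.Agent.Helper96.FP

variable {D : Type} [NormedAddCommGroup D] [InnerProductSpace ℝ D]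

theorem sq_sqrt_one (r : ℝ) (h0 : 0 ≤ r) (h1 : r ≤ 1) : r ^ 2 + Real.sqrt (1 - r ^ 2) ^ 2 = 1 := by
  rw [Real.sq_sqrt]
  · ring
  · nlinarith

/-- Second quantization of `r`. -/
noncomputable def Gam (r : ℝ) (h0 : 0 ≤ r) (h1 : r ≤ 1) (x : Fk D) : Fk D :=
  Pab r (Real.sqrt (1 - r ^ 2)) (sq_sqrt_one r h0 h1) (tens x Om)

theorem Gam_Ex (r : ℝ) (h0 : 0 ≤ r) (h1 : r ≤ 1) (v : D) : Gam r h0 h1 (Ex v) = Ex (r • v) := by
  unfold Gam Om
  rw [tens_Ex, Pab_Ex, smul_zero, add_zero]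

theorem Gam_cont (r : ℝ) (h0 : 0 ≤ r) (h1 : r ≤ 1) : Continuous (Gam (D := D) r h0 h1) := by
  unfold Gam
  fun_prop

theorem Gam_add (r : ℝ) (h0 : 0 ≤ r) (h1 : r ≤ 1) (x y : Fk D) : Gam r h0 h1 (x + y) = Gam r h0 h1 x + Gam r h0 h1 y := by
  unfold Gam
  rw [map_add, clm_add, map_add]

theorem Gam_smul (r : ℝ) (h0 : 0 ≤ r) (h1 : r ≤ 1) (c : ℂ) (x : Fk D) : Gam r h0 h1 (c • x) = c • Gam r h0 h1 x := by
  unfold Gam
  rw [map_smul, clm_smul, map_smul]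

theorem Gam_norm_le (r : ℝ) (h0 : 0 ≤ r) (h1 : r ≤ 1) (x : Fk D) : ‖Gam r h0 h1 x‖ ≤ ‖x‖ := by
  unfold Gam
  calc _ ≤ ‖tens x (Om : Fk D)‖ := norm_Pab _ _ _ _
    _ = ‖x‖ := by rw [norm_tens, norm_Om, mul_one]

/-- The series of `r² (exp x - 1) - (exp (r² x) - 1)`. -/
theorem hasSum_gap (r : ℝ) (x : ℝ) :
    HasSum (fun n : ℕ => ((r ^ 2 - (r ^ 2) ^ n) * ((n.factorial : ℝ))⁻¹ + if n = 0 then 1 - r ^ 2 else 0) * x ^ n)
      (r ^ 2 * (Real.exp x - 1) - (Real.exp (r ^ 2 * x) - 1)) := by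
  have h1 := (hasSum_exp x).mul_left (r ^ 2)
  have h2 := hasSum_exp (r ^ 2 * x)
  have h3 : HasSum (fun n : ℕ => (if n = 0 then 1 - r ^ 2 else 0) * x ^ n) (1 - r ^ 2) := by
    have h4 := hasSum_single (f := fun n : ℕ => (if n = 0 then 1 - r ^ 2 else 0) * x ^ n) 0 (fun n hn => by simp [hn])
    simpa using h4
  have h5 := (h1.sub h2).add h3
  have e1 : (fun n : ℕ => ((r ^ 2 - (r ^ 2) ^ n) * ((n.factorial : ℝ))⁻¹ + if n = 0 then 1 - r ^ 2 else 0) * x ^ n) =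
      fun n : ℕ => r ^ 2 * (((n.factorial : ℝ))⁻¹ * x ^ n) - ((n.factorial : ℝ))⁻¹ * (r ^ 2 * x) ^ n +
        (if n = 0 then 1 - r ^ 2 else 0) * x ^ n := by
    funext n
    rw [mul_pow]
    ring
  have e2 : r ^ 2 * (Real.exp x - 1) - (Real.exp (r ^ 2 * x) - 1) =
      r ^ 2 * Real.exp x - Real.exp (r ^ 2 * x) + (1 - r ^ 2) := by ring
  rw [e1, e2]
  exact h5

theorem gap_coeff_nonneg (r : ℝ) (h0 : 0 ≤ r) (h1 : r ≤ 1) (n : ℕ) :
    0 ≤ (r ^ 2 - (r ^ 2) ^ n) * ((n.factorial : ℝ))⁻¹ + if n = 0 then 1 - r ^ 2 else 0 := by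
  rcases n with _ | n
  · simp
  · have h2 : (r ^ 2) ^ (n + 1) ≤ r ^ 2 := by
      have h3 : (0 : ℝ) ≤ r ^ 2 := by positivity
      have h4 : r ^ 2 ≤ 1 := by nlinarith
      calc (r ^ 2) ^ (n + 1) = r ^ 2 * (r ^ 2) ^ n := by ring
        _ ≤ r ^ 2 * 1 := by
            gcongr
            exact pow_le_one₀ h3 h4
        _ = r ^ 2 := mul_one _
    have h3 : 0 ≤ (r ^ 2 - (r ^ 2) ^ (n + 1)) * (((n + 1).factorial : ℝ))⁻¹ :=
      mul_nonneg (by linarith) (by positivity)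
    simpa using h3

/-- The projection onto the complement of the vacuum. -/
noncomputable def Qv (x : Fk D) : Fk D := x - (inner ℂ (Om : Fk D) x : ℂ) • Om

theorem Qv_cont : Continuous (Qv : Fk D → Fk D) := by
  unfold Qv
  fun_prop

theorem Qv_add (x y : Fk D) : Qv (x + y) = Qv x + Qv y := by
  unfold Qv
  rw [inner_add_right, add_smul]
  abel

theorem Qv_smul (c : ℂ) (x : Fk D) : Qv (c • x) = c • Qv x := by
  unfold Qv
  rw [inner_smul_right, smul_sub, smul_smul]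

theorem Qv_Ex (v : D) : Qv (Ex v) = Ex v - Om := by
  unfold Qv
  rw [inner_Om, one_smul]

theorem inner_Om_Om : inner ℂ (Om : Fk D) Om = 1 := inner_Om 0

theorem Qv_self {x : Fk D} (hx : inner ℂ (Om : Fk D) x = 0) : Qv x = x := by
  unfold Qv
  rw [hx, zero_smul, sub_zero]

theorem inner_Om_Qv (x : Fk D) : inner ℂ (Om : Fk D) (Qv x) = 0 := by
  unfold Qv
  rw [inner_sub_right, inner_smul_right, inner_Om_Om, mul_one, sub_self]

theorem inner_Qv_Ex (v w : D) : inner ℂ (Ex v - (Om : Fk D)) (Ex w - Om) = ((Real.exp (inner ℝ v w) - 1 : ℝ) : ℂ) := by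
  have h1 : inner ℂ (Ex v) (Om : Fk D) = 1 := by
    rw [← inner_conj_symm, inner_Om, map_one]
  rw [inner_sub_left, inner_sub_right, inner_sub_right, inner_Ex, h1, inner_Om, inner_Om_Om, Complex.ofReal_sub,
    Complex.ofReal_one]
  ring

theorem Gam_Qv_le (r : ℝ) (h0 : 0 ≤ r) (h1 : r ≤ 1) (x : Fk D) : ‖Gam r h0 h1 (Qv x)‖ ≤ r * ‖Qv x‖ := by
  have hd := (total_Ex (D := D)).dense x
  have hcl : IsClosed {x : Fk D | ‖Gam r h0 h1 (Qv x)‖ ≤ r * ‖Qv x‖} :=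
    isClosed_le ((Gam_cont r h0 h1).comp Qv_cont).norm (Qv_cont.norm.const_mul r)
  refine closure_minimal (fun y hy => ?_) hcl hd
  obtain ⟨a, rfl⟩ := (Finsupp.mem_span_range_iff_exists_finsupp).1 hy
  change ‖Gam r h0 h1 (Qv (a.sum fun v c => c • Ex v))‖ ≤ r * ‖Qv (a.sum fun v c => c • Ex v)‖
  have e1 : Qv (a.sum fun v c => c • Ex v) = a.sum fun v c => c • (Ex v - (Om : Fk D)) := by
    unfold Finsupp.sum
    have hz : Qv (0 : Fk D) = 0 := by unfold Qv; simp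
    have hs : ∀ s : Finset D, Qv (∑ v ∈ s, a v • Ex v) = ∑ v ∈ s, a v • (Ex v - (Om : Fk D)) := by
      intro s
      classical
      induction s using Finset.induction_on with
      | empty => simpa using hz
      | insert v s hv ih => rw [Finset.sum_insert hv, Finset.sum_insert hv, Qv_add, Qv_smul, Qv_Ex, ih]
    exact hs _
  have e2 : Gam r h0 h1 (a.sum fun v c => c • (Ex v - (Om : Fk D))) = a.sum fun v c => c • (Ex (r • v) - (Om : Fk D)) := by
    unfold Finsupp.sum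
    have hz : Gam r h0 h1 (0 : Fk D) = 0 := by unfold Gam; simp
    have hO : Gam r h0 h1 (Om : Fk D) = Om := by
      unfold Om
      rw [Gam_Ex, smul_zero]
    have hsub : ∀ v : D, Gam r h0 h1 (Ex v - (Om : Fk D)) = Ex (r • v) - Om := by
      intro v
      have h2 : Ex v - (Om : Fk D) = Ex v + (-1 : ℂ) • Om := by simp [sub_eq_add_neg]
      rw [h2, Gam_add, Gam_smul, Gam_Ex, hO]
      simp [sub_eq_add_neg]
    have hs : ∀ s : Finset D, Gam r h0 h1 (∑ v ∈ s, a v • (Ex v - (Om : Fk D))) = ∑ v ∈ s, a v • (Ex (r • v) - (Om : Fk D)) := by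
      intro s
      classical
      induction s using Finset.induction_on with
      | empty => simpa using hz
      | insert v s hv ih => rw [Finset.sum_insert hv, Finset.sum_insert hv, Gam_add, Gam_smul, hsub, ih]
    exact hs _
  rw [e1, e2]
  have n1 := sum_norm_sq (𝕜 := ℂ) (fun v : D => Ex v - (Om : Fk D)) a
  have n2 := sum_norm_sq (𝕜 := ℂ) (fun v : D => Ex (r • v) - (Om : Fk D)) a
  have h2 := series_nonneg_complex (D := D) (gap_coeff_nonneg r h0 h1) (hasSum_gap r) a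
  have h3 : (a.sum fun x s => a.sum fun y t => (starRingEnd ℂ) s * t *
      ((r ^ 2 * (Real.exp (inner ℝ x y) - 1) - (Real.exp (r ^ 2 * inner ℝ x y) - 1) : ℝ) : ℂ)) =
      (((r ^ 2 * ‖a.sum fun v c => c • (Ex v - (Om : Fk D))‖ ^ 2 - ‖a.sum fun v c => c • (Ex (r • v) - (Om : Fk D))‖ ^ 2 : ℝ)) : ℂ) := by
    rw [Complex.ofReal_sub, Complex.ofReal_mul]
    rw [show ((‖a.sum fun v c => c • (Ex v - (Om : Fk D))‖ ^ 2 : ℝ) : ℂ) = _ from n1,
      show ((‖a.sum fun v c => c • (Ex (r • v) - (Om : Fk D))‖ ^ 2 : ℝ) : ℂ) = _ from n2]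
    unfold Finsupp.sum
    rw [Finset.mul_sum, ← Finset.sum_sub_distrib]
    refine Finset.sum_congr rfl fun x _ => ?_
    rw [Finset.mul_sum, ← Finset.sum_sub_distrib]
    refine Finset.sum_congr rfl fun y _ => ?_
    simp only
    rw [inner_Qv_Ex, inner_Qv_Ex, inner_smul_left, inner_smul_right, Complex.ofReal_sub (_ * _), Complex.ofReal_mul]
    have e3 : (starRingEnd ℝ) r * (r * inner ℝ x y) = r ^ 2 * inner ℝ x y := by
      simp only [conj_trivial]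
      ring
    rw [e3]
    ring
  rw [h3, Complex.ofReal_re] at h2
  have h4 : ‖a.sum fun v c => c • (Ex (r • v) - (Om : Fk D))‖ ^ 2 ≤ (r * ‖a.sum fun v c => c • (Ex v - (Om : Fk D))‖) ^ 2 := by
    rw [mul_pow]
    linarith
  exact le_of_sq_le_sq h4 (by positivity)

/-- On the complement of the vacuum. -/
theorem Gam_le (r : ℝ) (h0 : 0 ≤ r) (h1 : r ≤ 1) {x : Fk D} (hx : inner ℂ (Om : Fk D) x = 0) :
    ‖Gam r h0 h1 x‖ ≤ r * ‖x‖ := by
  have h := Gam_Qv_le r h0 h1 x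
  rwa [Qv_self hx] at h

/-- The component of `f ⊗ Ex w` in the first mode of a rotation. -/
theorem Pab_tens_le (a b : ℝ) (h : a ^ 2 + b ^ 2 = 1) (ha : 0 ≤ a) (hb : 0 ≤ b) {f : Fk D}
    (hf : inner ℂ (Om : Fk D) f = 0) (w : D) :
    ‖Pab a b h (tens f (Ex w))‖ ≤ Real.exp (‖w‖ ^ 2) * (Real.sqrt a * ‖f‖) := by
  have ha1 : a ≤ 1 := by nlinarith
  have hs0 : 0 ≤ Real.sqrt a := Real.sqrt_nonneg _
  have hs1 : Real.sqrt a ≤ 1 := Real.sqrt_le_one.2 ha1
  have hss : Real.sqrt a ^ 2 = a := Real.sq_sqrt ha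
  have key : ∀ f : Fk D, Pab a b h (tens f (Ex w)) =
      Pab (Real.sqrt a) (Real.sqrt (1 - Real.sqrt a ^ 2)) (sq_sqrt_one _ hs0 hs1)
        (tens (Gam (Real.sqrt a) hs0 hs1 f) (Ex (Real.sqrt (1 + a) • w))) := by
    intro f
    refine total_Ex.induction (p := fun f => Pab a b h (tens f (Ex w)) =
      Pab (Real.sqrt a) (Real.sqrt (1 - Real.sqrt a ^ 2)) (sq_sqrt_one _ hs0 hs1)
        (tens (Gam (Real.sqrt a) hs0 hs1 f) (Ex (Real.sqrt (1 + a) • w)))) ?_ (fun v => ?_) ?_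
      (fun x y hx hy => ?_) (fun c x hx => ?_) f
    · refine isClosed_eq (by fun_prop) ?_
      have := Gam_cont (D := D) (Real.sqrt a) hs0 hs1
      fun_prop
    · rw [tens_Ex, Pab_Ex, Gam_Ex, tens_Ex, Pab_Ex, smul_smul, smul_smul, Real.mul_self_sqrt ha, hss]
      congr 2
      rw [← Real.sqrt_mul (by linarith)]
      congr 1
      have e : (1 - a) * (1 + a) = b ^ 2 := by linarith
      rw [e, Real.sqrt_sq hb]
    · have hz : Gam (Real.sqrt a) hs0 hs1 (0 : Fk D) = 0 := by unfold Gam; simp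
      rw [hz]
      simp
    · rw [map_add, clm_add, map_add, hx, hy, Gam_add, map_add, clm_add, map_add]
    · rw [map_smul, clm_smul, map_smul, hx, Gam_smul, map_smul, clm_smul, map_smul]
  rw [key]
  have h2 : ‖Ex (Real.sqrt (1 + a) • w)‖ ≤ Real.exp (‖w‖ ^ 2) := by
    have h3 := norm_Ex (Real.sqrt (1 + a) • w)
    have h4 : ‖Real.sqrt (1 + a) • w‖ ^ 2 ≤ 2 * ‖w‖ ^ 2 := by
      rw [norm_smul, mul_pow, Real.norm_eq_abs, sq_abs, Real.sq_sqrt (by linarith)]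
      gcongr
      linarith
    have h5 : ‖Ex (Real.sqrt (1 + a) • w)‖ ^ 2 ≤ Real.exp (‖w‖ ^ 2) ^ 2 := by
      rw [h3, ← Real.exp_nat_mul]
      apply Real.exp_le_exp.2
      push_cast
      exact h4
    exact le_of_sq_le_sq h5 (Real.exp_pos _).le
  calc _ ≤ ‖tens (Gam (Real.sqrt a) hs0 hs1 f) (Ex (Real.sqrt (1 + a) • w))‖ := norm_Pab _ _ _ _
    _ = ‖Gam (Real.sqrt a) hs0 hs1 f‖ * ‖Ex (Real.sqrt (1 + a) • w)‖ := norm_tens _ _
    _ ≤ (Real.sqrt a * ‖f‖) * Real.exp (‖w‖ ^ 2) := by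
        gcongr
        exact Gam_le _ hs0 hs1 hf
    _ = _ := mul_comm _ _

end Pool.Agent.Helper96.FP
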