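import Pool.Agent.Helper96.FP.Ext

/-!
# Project FP: regular representations

`LamL μ m N = L²(𝕊 × Ω; N)`, `lamR 𝕜 μ m N g f (h, ω) = f (g⁻¹ h, ω)`.
-/

set_option autoImplicit false
set_option linter.unusedSectionVars false

open Filter Topology MeasureTheory

namespace Pool.Agent.Helper96.FP

variable {𝕊 : Type} [Group 𝕊] [TopologicalSpace 𝕊] [IsTopologicalGroup 𝕊] [MeasurableSpace 𝕊] [BorelSpace 𝕊]
  [SecondCountableTopology 𝕊] (μ : Measure 𝕊) [μ.IsMulLeftInvariant] [SFinite μ]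
  {Ω : Type} [MeasurableSpace Ω] (m : Measure Ω) [SFinite m]

/-- Left translation on `𝕊 × Ω`. -/
def sft (Ω : Type) (g : 𝕊) : 𝕊 × Ω → 𝕊 × Ω := fun p => (g * p.1, p.2)

theorem mp_sft (g : 𝕊) : MeasurePreserving (sft Ω g) (μ.prod m) (μ.prod m) :=
  (measurePreserving_mul_left μ g).prod (MeasurePreserving.id m)

/-- The space `L²(𝕊 × Ω; N)`. -/
abbrev LamL (N : Type) [NormedAddCommGroup N] : Type := Lp N 2 (μ.prod m)

variable (𝕜 : Type) [RCLike 𝕜] (N : Type) [NormedAddCommGroup N] [InnerProductSpace 𝕜 N]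

/-- Composition with the translation. -/
noncomputable def cmpS (g : 𝕊) : LamL μ m N →ₗᵢ[𝕜] LamL μ m N := Lp.compMeasurePreservingₗᵢ 𝕜 (sft Ω g) (mp_sft μ m g)

theorem cmpS_coe (g : 𝕊) (f : LamL μ m N) : ∀ᵐ p ∂(μ.prod m), cmpS μ m 𝕜 N g f p = f (g * p.1, p.2) :=
  Lp.coeFn_compMeasurePreserving f (mp_sft μ m g)

theorem cmpS_mul (g h : 𝕊) (f : LamL μ m N) : cmpS μ m 𝕜 N g (cmpS μ m 𝕜 N h f) = cmpS μ m 𝕜 N (h * g) f := by
  refine Lp.ext ?_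
  filter_upwards [cmpS_coe μ m 𝕜 N g (cmpS μ m 𝕜 N h f), (mp_sft μ m g).quasiMeasurePreserving.ae (cmpS_coe μ m 𝕜 N h f),
    cmpS_coe μ m 𝕜 N (h * g) f] with p h1 h2 h3
  rw [h1, h3]
  have h4 : cmpS μ m 𝕜 N h f (sft Ω g p) = f (h * (sft Ω g p).1, (sft Ω g p).2) := h2
  have h5 : (g * p.1, p.2) = sft Ω g p := rfl
  rw [h5, h4]
  change f (h * (g * p.1), p.2) = _
  rw [mul_assoc]

theorem cmpS_one (f : LamL μ m N) : cmpS μ m 𝕜 N 1 f = f := by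
  refine Lp.ext ?_
  filter_upwards [cmpS_coe μ m 𝕜 N 1 f] with p h1
  rw [h1, one_mul]

/-- The regular representation. -/
noncomputable def lamR : 𝕊 →* (LamL μ m N ≃ₗᵢ[𝕜] LamL μ m N) where
  toFun g :=
    { toFun := cmpS μ m 𝕜 N g⁻¹
      invFun := cmpS μ m 𝕜 N g
      map_add' := map_add _
      map_smul' := map_smul _
      left_inv := fun f => by rw [cmpS_mul, inv_mul_cancel, cmpS_one]
      right_inv := fun f => by rw [cmpS_mul, mul_inv_cancel, cmpS_one]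
      norm_map' := fun f => (cmpS μ m 𝕜 N g⁻¹).norm_map f }
  map_one' := by
    refine LinearIsometryEquiv.ext fun f => ?_
    change cmpS μ m 𝕜 N 1⁻¹ f = f
    rw [inv_one, cmpS_one]
  map_mul' g h := by
    refine LinearIsometryEquiv.ext fun f => ?_
    change cmpS μ m 𝕜 N (g * h)⁻¹ f = cmpS μ m 𝕜 N g⁻¹ (cmpS μ m 𝕜 N h⁻¹ f)
    rw [cmpS_mul, mul_inv_rev]

theorem lamR_apply (g : 𝕊) (f : LamL μ m N) : lamR μ m 𝕜 N g f = cmpS μ m 𝕜 N g⁻¹ f := rfl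

theorem lamR_coe (g : 𝕊) (f : LamL μ m N) : ∀ᵐ p ∂(μ.prod m), lamR μ m 𝕜 N g f p = f (g⁻¹ * p.1, p.2) :=
  cmpS_coe μ m 𝕜 N g⁻¹ f

/-- Strong continuity. -/
theorem lamR_cont [TopologicalSpace Ω] [LocallyCompactSpace 𝕊] [T2Space 𝕊] [LocallyCompactSpace Ω] [T2Space Ω]
    [SecondCountableTopology Ω] [BorelSpace Ω] [IsLocallyFiniteMeasure μ] [IsLocallyFiniteMeasure m]
    (f : LamL μ m N) : Continuous fun g => lamR μ m 𝕜 N g f := by
  have hg : Continuous fun g : 𝕊 => ((⟨sft Ω g⁻¹, by unfold sft; fun_prop⟩ : C(𝕊 × Ω, 𝕊 × Ω))) := by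
    have h := (ContinuousMap.curry (⟨fun p : 𝕊 × (𝕊 × Ω) => sft Ω p.1⁻¹ p.2, by unfold sft; fun_prop⟩ :
      C(𝕊 × (𝕊 × Ω), 𝕊 × Ω))).continuous
    exact h
  exact Continuous.compMeasurePreservingLp continuous_const hg (fun g => mp_sft μ m g⁻¹) (by norm_num)

end Pool.Agent.Helper96.FP
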