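import Mathlib

/-!
# Project FP, step 4: a recursion for the gaps `1 - θ` along `t = 2^-j t₀`
-/

set_option autoImplicit false

open Filter Topology

namespace Pool.Agent.Helper96.FP

/-- If `ε → 0` and `2 ε (j + 1) - C ε (j + 1) ^ 2 ≤ ε j` for large `j`, then `ε j = O(2 ^ -j)`. -/
theorem seq_linear {ε : ℕ → ℝ} {C : ℝ} (h0 : ∀ j, 0 ≤ ε j) (hC : 0 ≤ C) (hlim : Tendsto ε atTop (𝓝 0))
    (h : ∀ᶠ j in atTop, 2 * ε (j + 1) - C * ε (j + 1) ^ 2 ≤ ε j) :
    ∃ C' : ℝ, 0 ≤ C' ∧ ∀ j, ε j ≤ C' * (2⁻¹ : ℝ) ^ j := by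
  have h1 : ∀ᶠ j in atTop, C * ε j ≤ 1 / 2 := by
    have h2 : Tendsto (fun j => C * ε j) atTop (𝓝 0) := by simpa using hlim.const_mul C
    exact (h2.eventually (gt_mem_nhds (by norm_num : (0 : ℝ) < 1 / 2))).mono fun j hj => hj.le
  obtain ⟨N, hN⟩ := eventually_atTop.1 (h.and h1)
  have hstep : ∀ k, ε (N + k + 1) ≤ (2 / 3) * ε (N + k) := by
    intro k
    have h2 := (hN (N + k) (by omega)).1
    have h3 := (hN (N + k + 1) (by omega)).2
    have h4 := h0 (N + k + 1)
    nlinarith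
  have hgeo : ∀ k, ε (N + k) ≤ (2 / 3) ^ k * ε N := by
    intro k
    induction k with
    | zero => simp
    | succ k ih =>
      have h2 := hstep k
      rw [show N + (k + 1) = N + k + 1 by ring]
      calc ε (N + k + 1) ≤ (2 / 3) * ε (N + k) := h2
        _ ≤ (2 / 3) * ((2 / 3) ^ k * ε N) := by gcongr
        _ = (2 / 3) ^ (k + 1) * ε N := by ring
  have hexp : ∀ k, 2 ^ k * ε (N + k) ≤ ε N * Real.exp (2 * C * ε N * (1 - (2 / 3) ^ k)) := by
    intro k
    induction k with
    | zero => simp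
    | succ k ih =>
      have h2 := (hN (N + k) (by omega)).1
      have h3 := (hN (N + k + 1) (by omega)).2
      have h4 := h0 (N + k + 1)
      have h5 := hgeo (k + 1)
      rw [show N + (k + 1) = N + k + 1 by ring] at h5 ⊢
      set e := ε (N + k + 1) with he
      -- `2 e ≤ ε (N + k) (1 + C e)`
      have h6 : 2 * e ≤ ε (N + k) * (1 + C * e) := by
        have h7 : 2 * e * (1 - C * e / 2) ≤ ε (N + k) := by nlinarith
        have h8 : 1 ≤ (1 - C * e / 2) * (1 + C * e) := by nlinarith [mul_nonneg hC h4]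
        have h9 : 0 ≤ 1 + C * e := by positivity
        calc 2 * e = 2 * e * 1 := by ring
          _ ≤ 2 * e * ((1 - C * e / 2) * (1 + C * e)) := by gcongr
          _ = 2 * e * (1 - C * e / 2) * (1 + C * e) := by ring
          _ ≤ ε (N + k) * (1 + C * e) := by gcongr
      have h7 : 1 + C * e ≤ Real.exp (C * e) := by
        have := Real.add_one_le_exp (C * e)
        linarith
      have h8 : C * e ≤ 2 * C * ε N * ((2 / 3) ^ k - (2 / 3) ^ (k + 1)) := by
        have : C * e ≤ C * ((2 / 3) ^ (k + 1) * ε N) := by gcongr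
        refine this.trans (le_of_eq ?_)
        ring
      calc 2 ^ (k + 1) * e = 2 ^ k * (2 * e) := by ring
        _ ≤ 2 ^ k * (ε (N + k) * (1 + C * e)) := by gcongr
        _ = (2 ^ k * ε (N + k)) * (1 + C * e) := by ring
        _ ≤ (ε N * Real.exp (2 * C * ε N * (1 - (2 / 3) ^ k))) * Real.exp (C * e) := by
            have h9 : 0 ≤ 1 + C * e := by positivity
            have h10 : 0 ≤ ε N * Real.exp (2 * C * ε N * (1 - (2 / 3) ^ k)) := mul_nonneg (h0 N) (Real.exp_pos _).le
            exact mul_le_mul ih h7 h9 h10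
        _ = ε N * Real.exp (2 * C * ε N * (1 - (2 / 3) ^ k) + C * e) := by rw [Real.exp_add]; ring
        _ ≤ ε N * Real.exp (2 * C * ε N * (1 - (2 / 3) ^ (k + 1))) := by
            have h9 := h0 N
            gcongr
            linarith
  refine ⟨(∑ i ∈ Finset.range N, 2 ^ i * ε i) + 2 ^ N * (ε N * Real.exp (2 * C * ε N)), ?_, ?_⟩
  · have h2 : 0 ≤ ∑ i ∈ Finset.range N, 2 ^ i * ε i :=
      Finset.sum_nonneg fun i _ => mul_nonneg (by positivity) (h0 i)
    have h3 := h0 N
    positivity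
  · intro j
    have hS : 0 ≤ ∑ i ∈ Finset.range N, 2 ^ i * ε i :=
      Finset.sum_nonneg fun i _ => mul_nonneg (by positivity) (h0 i)
    have hT : 0 ≤ 2 ^ N * (ε N * Real.exp (2 * C * ε N)) := by
      have h3 := h0 N
      positivity
    have key : 2 ^ j * ε j ≤ (∑ i ∈ Finset.range N, 2 ^ i * ε i) + 2 ^ N * (ε N * Real.exp (2 * C * ε N)) := by
      by_cases hj : j < N
      · have h2 : 2 ^ j * ε j ≤ ∑ i ∈ Finset.range N, 2 ^ i * ε i :=
          Finset.single_le_sum (f := fun i => 2 ^ i * ε i) (fun i _ => mul_nonneg (by positivity) (h0 i))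
            (Finset.mem_range.2 hj)
        linarith
      · obtain ⟨k, rfl⟩ := Nat.exists_eq_add_of_le (not_lt.1 hj)
        have h2 := hexp k
        have h3 : Real.exp (2 * C * ε N * (1 - (2 / 3) ^ k)) ≤ Real.exp (2 * C * ε N) := by
          apply Real.exp_le_exp.2
          have h4 : 0 ≤ 2 * C * ε N := by have := h0 N; positivity
          have h5 : (0 : ℝ) ≤ (2 / 3) ^ k := by positivity
          nlinarith
        have h4 : 2 ^ k * ε (N + k) ≤ ε N * Real.exp (2 * C * ε N) :=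
          h2.trans (mul_le_mul_of_nonneg_left h3 (h0 N))
        calc 2 ^ (N + k) * ε (N + k) = 2 ^ N * (2 ^ k * ε (N + k)) := by rw [pow_add]; ring
          _ ≤ 2 ^ N * (ε N * Real.exp (2 * C * ε N)) := by gcongr
          _ ≤ _ := by linarith
    have h2 : ε j = (2⁻¹ : ℝ) ^ j * (2 ^ j * ε j) := by
      rw [← mul_assoc, ← mul_pow]
      norm_num
    rw [h2, mul_comm _ ((2⁻¹ : ℝ) ^ j)]
    gcongr

end Pool.Agent.Helper96.FP
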