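import Mathlib

/-!
# Project FP, step 4: the top eigenvector

`A` selfadjoint, `y` a unit vector, `⟨A x, x⟩ ≤ κ ‖x‖²` on the orthogonal complement of `y`, `κ < ⟨A y, y⟩`: then `A` has a top eigenvector `v`
with the same gap on its orthogonal complement.
-/

set_option autoImplicit false

open Filter Topology RCLike

namespace Pool.Agent.Helper96.FP

variable {𝕜 : Type*} [RCLike 𝕜] {E : Type*} [NormedAddCommGroup E] [InnerProductSpace 𝕜 E]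

/-- `q x = θ ‖x‖² - re ⟨A x, x⟩`. -/
noncomputable def qf (A : E →L[𝕜] E) (θ : ℝ) (x : E) : ℝ := θ * ‖x‖ ^ 2 - re (inner 𝕜 (A x) x)

theorem qf_par (A : E →L[𝕜] E) (θ : ℝ) (x y : E) :
    qf A θ (x + y) + qf A θ (x - y) = 2 * qf A θ x + 2 * qf A θ y := by
  have h := parallelogram_law_with_norm 𝕜 x y
  have h2 : re (inner 𝕜 (A (x + y)) (x + y)) + re (inner 𝕜 (A (x - y)) (x - y)) =
      2 * re (inner 𝕜 (A x) x) + 2 * re (inner 𝕜 (A y) y) := by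
    simp only [map_add, map_sub, inner_add_left, inner_add_right, inner_sub_left, inner_sub_right]
    ring
  unfold qf
  linear_combination θ * h - h2

theorem qf_smul (A : E →L[𝕜] E) (θ : ℝ) (c : 𝕜) (x : E) : qf A θ (c • x) = ‖c‖ ^ 2 * qf A θ x := by
  have h : inner 𝕜 (A (c • x)) (c • x) = ((‖c‖ ^ 2 : ℝ) : 𝕜) * inner 𝕜 (A x) x := by
    rw [map_smul, inner_smul_left, inner_smul_right, ← mul_assoc, RCLike.conj_mul]
    push_cast
    ring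
  unfold qf
  rw [h, re_ofReal_mul, norm_smul]
  ring

theorem qf_cont (A : E →L[𝕜] E) (θ : ℝ) : Continuous (qf A θ) := by
  unfold qf
  fun_prop

theorem qf_sub_le (A : E →L[𝕜] E) (θ : ℝ) (h0 : ∀ x, 0 ≤ qf A θ x) (x y : E) :
    qf A θ (x - y) ≤ 2 * qf A θ x + 2 * qf A θ y := by
  have h := qf_par A θ x y
  have h1 := h0 (x + y)
  linarith

/-- A zero of a nonnegative form is in the kernel. -/
theorem ker_of_qf {A : E →L[𝕜] E} (hA : ∀ x y, inner 𝕜 (A x) y = inner 𝕜 x (A y)) {θ : ℝ}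
    (h0 : ∀ x, 0 ≤ qf A θ x) {v : E} (hv : qf A θ v = 0) : A v = (θ : 𝕜) • v := by
  set T : E := A v - (θ : 𝕜) • v with hT
  -- expansion
  have hexp : ∀ (s : ℝ) (z : E), qf A θ (v + (s : 𝕜) • z) =
      qf A θ v - 2 * s * re (inner 𝕜 (A v - (θ : 𝕜) • v) z) + s ^ 2 * qf A θ z := by
    intro s z
    have e1 : re (inner 𝕜 (A z) v) = re (inner 𝕜 (A v) z) := by
      rw [hA z v, ← inner_conj_symm, conj_re]
    have e2 : re (inner 𝕜 v z) = re (inner 𝕜 z v) := by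
      rw [← inner_conj_symm, conj_re]
    have e3 : ‖v + (s : 𝕜) • z‖ ^ 2 = ‖v‖ ^ 2 + 2 * (s * re (inner 𝕜 v z)) + s ^ 2 * ‖z‖ ^ 2 := by
      rw [norm_add_sq (𝕜 := 𝕜), inner_smul_right, re_ofReal_mul, norm_smul, norm_ofReal, mul_pow, sq_abs]
    have e4 : re (inner 𝕜 (A (v + (s : 𝕜) • z)) (v + (s : 𝕜) • z)) =
        re (inner 𝕜 (A v) v) + 2 * s * re (inner 𝕜 (A v) z) + s ^ 2 * re (inner 𝕜 (A z) z) := by
      rw [map_add, map_smul, inner_add_left, inner_add_right, inner_add_right, inner_smul_left, inner_smul_right,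
        inner_smul_left, inner_smul_right, conj_ofReal]
      simp only [map_add, re_ofReal_mul, e1]
      ring
    have e5 : re (inner 𝕜 (A v - (θ : 𝕜) • v) z) = re (inner 𝕜 (A v) z) - θ * re (inner 𝕜 v z) := by
      rw [inner_sub_left, inner_smul_left, conj_ofReal, map_sub, re_ofReal_mul]
    unfold qf
    rw [e3, e4, e5]
    ring
  have h1 : ∀ s : ℝ, 0 ≤ - 2 * s * ‖T‖ ^ 2 + s ^ 2 * qf A θ T := by
    intro s
    have h2 := hexp s T
    have h3 := h0 (v + (s : 𝕜) • T)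
    have h4 : re (inner 𝕜 (A v - (θ : 𝕜) • v) T) = ‖T‖ ^ 2 := by
      rw [← hT, inner_self_eq_norm_sq_to_K]
      norm_cast
    rw [h4] at h2
    rw [h2, hv] at h3
    linarith
  have h2 : ‖T‖ ^ 2 = 0 := by
    by_contra hne
    have hpos : 0 < ‖T‖ ^ 2 := lt_of_le_of_ne (by positivity) (Ne.symm hne)
    have hq := h0 T
    have h3 := h1 (‖T‖ ^ 2 / (qf A θ T + 1))
    have hd : 0 < qf A θ T + 1 := by linarith
    have h4 : - 2 * (‖T‖ ^ 2 / (qf A θ T + 1)) * ‖T‖ ^ 2 + (‖T‖ ^ 2 / (qf A θ T + 1)) ^ 2 * qf A θ T < 0 := by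
      have e : - 2 * (‖T‖ ^ 2 / (qf A θ T + 1)) * ‖T‖ ^ 2 + (‖T‖ ^ 2 / (qf A θ T + 1)) ^ 2 * qf A θ T =
          - ((‖T‖ ^ 2) ^ 2 * (qf A θ T + 2)) / (qf A θ T + 1) ^ 2 := by
        field_simp
        ring
      rw [e]
      apply div_neg_of_neg_of_pos
      · have : 0 < (‖T‖ ^ 2) ^ 2 * (qf A θ T + 2) := by positivity
        linarith
      · positivity
    linarith
  have h3 : T = 0 := by
    have : ‖T‖ = 0 := by
      by_contra hne
      exact hne (pow_eq_zero_iff (two_ne_zero)|>.1 h2)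
    exact norm_eq_zero.1 this
  exact sub_eq_zero.1 h3

/-- The top eigenvector. -/
theorem exists_max [CompleteSpace E] {A : E →L[𝕜] E} (hA : ∀ x y, inner 𝕜 (A x) y = inner 𝕜 x (A y)) {κ : ℝ} {y : E}
    (hy : ‖y‖ = 1) (hκ : ∀ x, inner 𝕜 y x = 0 → re (inner 𝕜 (A x) x) ≤ κ * ‖x‖ ^ 2)
    (hlt : κ < re (inner 𝕜 (A y) y)) :
    ∃ (v : E) (θ : ℝ), ‖v‖ = 1 ∧ re (inner 𝕜 (A y) y) ≤ θ ∧ A v = (θ : 𝕜) • v ∧
      ∀ x, re (inner 𝕜 (A x) x) ≤ θ * ‖x‖ ^ 2 := by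
  classical
  set S : Set ℝ := {r | ∃ u : E, ‖u‖ = 1 ∧ r = re (inner 𝕜 (A u) u)} with hS
  have hSn : S.Nonempty := ⟨_, y, hy, rfl⟩
  have hSb : BddAbove S := by
    refine ⟨‖A‖, ?_⟩
    rintro r ⟨u, hu, rfl⟩
    calc re (inner 𝕜 (A u) u) ≤ ‖inner 𝕜 (A u) u‖ := re_le_norm _
      _ ≤ ‖A u‖ * ‖u‖ := norm_inner_le_norm _ _
      _ ≤ (‖A‖ * ‖u‖) * ‖u‖ := by gcongr; exact A.le_opNorm u
      _ = ‖A‖ := by rw [hu]; ring
  set θ : ℝ := sSup S with hθ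
  have hyθ : re (inner 𝕜 (A y) y) ≤ θ := le_csSup hSb ⟨y, hy, rfl⟩
  have hall : ∀ x, re (inner 𝕜 (A x) x) ≤ θ * ‖x‖ ^ 2 := by
    intro x
    by_cases hx : x = 0
    · simp [hx]
    · have hx' : 0 < ‖x‖ := norm_pos_iff.2 hx
      have h1 : re (inner 𝕜 (A (((‖x‖⁻¹ : ℝ) : 𝕜) • x)) (((‖x‖⁻¹ : ℝ) : 𝕜) • x)) ≤ θ := by
        refine le_csSup hSb ⟨_, ?_, rfl⟩
        rw [norm_smul, norm_ofReal, abs_of_pos (inv_pos.2 hx')]
        field_simp
      rw [map_smul, inner_smul_left, inner_smul_right, conj_ofReal, re_ofReal_mul, re_ofReal_mul] at h1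
      have h2 : ‖x‖ ^ 2 * (‖x‖⁻¹ * (‖x‖⁻¹ * re (inner 𝕜 (A x) x))) ≤ ‖x‖ ^ 2 * θ := by gcongr
      have h3 : ‖x‖ ^ 2 * (‖x‖⁻¹ * (‖x‖⁻¹ * re (inner 𝕜 (A x) x))) = re (inner 𝕜 (A x) x) := by
        field_simp
      rw [h3] at h2
      linarith
  have h0 : ∀ x, 0 ≤ qf A θ x := fun x => by
    unfold qf
    have := hall x
    linarith
  have hκθ : κ < θ := lt_of_lt_of_le hlt hyθ
  -- maximizing sequence
  have hex : ∀ n : ℕ, ∃ u : E, ‖u‖ = 1 ∧ qf A θ u < 1 / ((n : ℝ) + 1) := by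
    intro n
    have hn : θ - 1 / ((n : ℝ) + 1) < sSup S := by
      have : 0 < 1 / ((n : ℝ) + 1) := by positivity
      linarith
    obtain ⟨r, ⟨u, hu, rfl⟩, hr⟩ := exists_lt_of_lt_csSup hSn hn
    refine ⟨u, hu, ?_⟩
    unfold qf
    rw [hu]
    linarith
  choose u hu hqu using hex
  have hqu0 : Tendsto (fun n => qf A θ (u n)) atTop (𝓝 0) :=
    squeeze_zero (fun n => h0 _) (fun n => (hqu n).le) tendsto_one_div_add_atTop_nhds_zero_nat
  set c : ℕ → 𝕜 := fun n => inner 𝕜 y (u n) with hc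
  have hcb : ∀ n, c n ∈ Metric.closedBall (0 : 𝕜) 1 := by
    intro n
    rw [mem_closedBall_zero_iff]
    calc ‖c n‖ ≤ ‖y‖ * ‖u n‖ := norm_inner_le_norm _ _
      _ = 1 := by rw [hy, hu]; ring
  obtain ⟨c0, -, φ, hφ, hφc⟩ := tendsto_subseq_of_bounded (Metric.isBounded_closedBall) hcb
  set w : ℕ → E := fun n => u n - c n • y with hw
  have hwy : ∀ n m, inner 𝕜 y (w n - w m) = 0 := by
    intro n m
    have h1 : ∀ k, inner 𝕜 y (w k) = 0 := by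
      intro k
      rw [hw]
      simp only
      rw [inner_sub_right, inner_smul_right, inner_self_eq_norm_sq_to_K, hy]
      simp [hc]
    rw [inner_sub_right, h1, h1, sub_zero]
  have hbd : ∀ n m, (θ - κ) * ‖w n - w m‖ ^ 2 ≤
      4 * qf A θ (u n) + 4 * qf A θ (u m) + 2 * ‖c n - c m‖ ^ 2 * qf A θ y := by
    intro n m
    have h1 : (θ - κ) * ‖w n - w m‖ ^ 2 ≤ qf A θ (w n - w m) := by
      unfold qf
      have := hκ _ (hwy n m)
      linarith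
    have h2 : w n - w m = (u n - u m) - (c n - c m) • y := by
      simp only [hw, sub_smul]
      abel
    have h3 := qf_sub_le A θ h0 (u n - u m) ((c n - c m) • y)
    rw [← h2, qf_smul] at h3
    have h4 := qf_sub_le A θ h0 (u n) (u m)
    linarith
  have hfst : Tendsto (fun p : ℕ × ℕ => p.1) atTop atTop := by
    rw [← prod_atTop_atTop_eq]; exact tendsto_fst
  have hsnd : Tendsto (fun p : ℕ × ℕ => p.2) atTop atTop := by
    rw [← prod_atTop_atTop_eq]; exact tendsto_snd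
  have hcau : CauchySeq (fun n => w (φ n)) := by
    rw [cauchySeq_iff_tendsto_dist_atTop_0]
    have hc2 : Tendsto (fun p : ℕ × ℕ => ‖c (φ p.1) - c (φ p.2)‖) atTop (𝓝 0) := by
      have := cauchySeq_iff_tendsto_dist_atTop_0.1 hφc.cauchySeq
      simpa [dist_eq_norm] using this
    have hq1 : Tendsto (fun p : ℕ × ℕ => qf A θ (u (φ p.1))) atTop (𝓝 0) :=
      (hqu0.comp hφ.tendsto_atTop).comp hfst
    have hq2 : Tendsto (fun p : ℕ × ℕ => qf A θ (u (φ p.2))) atTop (𝓝 0) :=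
      (hqu0.comp hφ.tendsto_atTop).comp hsnd
    have hR : Tendsto (fun p : ℕ × ℕ => (θ - κ)⁻¹ * (4 * qf A θ (u (φ p.1)) + 4 * qf A θ (u (φ p.2)) +
        2 * ‖c (φ p.1) - c (φ p.2)‖ ^ 2 * qf A θ y)) atTop (𝓝 0) := by
      have := (((hq1.const_mul 4).add (hq2.const_mul 4)).add
        (((hc2.pow 2).const_mul 2).mul_const (qf A θ y))).const_mul ((θ - κ)⁻¹)
      simpa using this
    have hR2 : Tendsto (fun p : ℕ × ℕ => Real.sqrt ((θ - κ)⁻¹ * (4 * qf A θ (u (φ p.1)) + 4 * qf A θ (u (φ p.2)) +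
        2 * ‖c (φ p.1) - c (φ p.2)‖ ^ 2 * qf A θ y))) atTop (𝓝 0) := by
      have := (Real.continuous_sqrt.tendsto 0).comp hR
      rw [Real.sqrt_zero] at this
      exact this
    refine squeeze_zero (fun p => dist_nonneg) (fun p => ?_) hR2
    rw [dist_eq_norm]
    apply Real.le_sqrt_of_sq_le
    have h1 := hbd (φ p.1) (φ p.2)
    have hpos : 0 < θ - κ := by linarith
    rw [← div_eq_inv_mul, le_div_iff₀ hpos]
    linarith
  obtain ⟨w0, hw0⟩ := cauchySeq_tendsto_of_complete hcau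
  have hu0 : Tendsto (fun n => u (φ n)) atTop (𝓝 (w0 + c0 • y)) := by
    have h1 := hw0.add (hφc.smul_const y)
    refine h1.congr fun n => ?_
    simp [hw]
  set v : E := w0 + c0 • y with hv
  have hv1 : ‖v‖ = 1 := by
    have h1 := hu0.norm
    have h2 : (fun n => ‖u (φ n)‖) = fun _ => (1 : ℝ) := funext fun n => hu _
    rw [h2] at h1
    exact tendsto_nhds_unique h1 tendsto_const_nhds |>.symm ▸ rfl
  have hv0 : qf A θ v = 0 := by
    have h1 := ((qf_cont A θ).tendsto v).comp hu0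
    exact tendsto_nhds_unique h1 (hqu0.comp hφ.tendsto_atTop)
  exact ⟨v, θ, hv1, hyθ, ker_of_qf hA h0 hv0, hall⟩

/-- Decomposition of the quadratic form along an eigenvector. -/
theorem quad_decomp {A : E →L[𝕜] E} (hA : ∀ x y, inner 𝕜 (A x) y = inner 𝕜 x (A y)) {v : E} (hv : ‖v‖ = 1) {θ : ℝ}
    (hAv : A v = (θ : 𝕜) • v) (a : 𝕜) {z : E} (hz : inner 𝕜 v z = 0) :
    re (inner 𝕜 (A (a • v + z)) (a • v + z)) = θ * ‖a‖ ^ 2 + re (inner 𝕜 (A z) z) ∧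
      ‖a • v + z‖ ^ 2 = ‖a‖ ^ 2 + ‖z‖ ^ 2 := by
  have hz' : inner 𝕜 z v = 0 := by rw [← inner_conj_symm, hz, map_zero]
  have h1 : inner 𝕜 (A z) v = 0 := by rw [hA, hAv, inner_smul_right, hz', mul_zero]
  constructor
  · rw [map_add, map_smul, hAv, inner_add_left, inner_add_right, inner_add_right, inner_smul_left, inner_smul_left,
      inner_smul_right, inner_smul_left, inner_smul_left, inner_smul_right, h1, hz, inner_self_eq_norm_sq_to_K, hv]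
    simp only [conj_ofReal, mul_zero, add_zero, zero_add, ofReal_one, one_pow, mul_one, map_add]
    rw [show (starRingEnd 𝕜) a * (↑θ * a) = ((θ * ‖a‖ ^ 2 : ℝ) : 𝕜) by
      push_cast
      rw [← RCLike.conj_mul]
      ring, ofReal_re]
  · have h2 := norm_add_sq (𝕜 := 𝕜) (a • v) z
    rw [inner_smul_left, hz, mul_zero, map_zero, mul_zero, add_zero, norm_smul, hv, mul_one] at h2
    exact h2

/-- The gap on the complement of the top eigenvector, and the overlap with `y`. -/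
theorem gap_of_top {A : E →L[𝕜] E} (hA : ∀ x y, inner 𝕜 (A x) y = inner 𝕜 x (A y)) {κ : ℝ} {y : E}
    (hκ : ∀ x, inner 𝕜 y x = 0 → re (inner 𝕜 (A x) x) ≤ κ * ‖x‖ ^ 2)
    {v : E} {θ : ℝ} (hv : ‖v‖ = 1) (hAv : A v = (θ : 𝕜) • v) (hθ : κ < θ) :
    inner 𝕜 v y ≠ 0 ∧ ∀ x, inner 𝕜 v x = 0 → re (inner 𝕜 (A x) x) ≤ κ * ‖x‖ ^ 2 := by
  have hne : inner 𝕜 v y ≠ 0 := by
    intro h0
    have h1 : inner 𝕜 y v = 0 := by rw [← inner_conj_symm, h0, map_zero]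
    have h2 := hκ v h1
    rw [hAv, inner_smul_left, conj_ofReal, re_ofReal_mul, inner_self_eq_norm_sq_to_K, hv] at h2
    have h3 : re (((1 : ℝ) : 𝕜) ^ 2) = 1 := by
      rw [ofReal_one, one_pow, one_re]
    rw [h3] at h2
    linarith
  refine ⟨hne, fun x hx => ?_⟩
  have hne' : inner 𝕜 y v ≠ 0 := by
    intro h
    apply hne
    rw [← inner_conj_symm, h, map_zero]
  set a : 𝕜 := - (inner 𝕜 y x) / inner 𝕜 y v with ha
  have h1 : inner 𝕜 y (a • v + x) = 0 := by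
    rw [inner_add_right, inner_smul_right, ha]
    field_simp
    ring
  have h2 := hκ _ h1
  obtain ⟨h3, h4⟩ := quad_decomp hA hv hAv a hx
  rw [h3, h4] at h2
  have h5 : 0 ≤ (θ - κ) * ‖a‖ ^ 2 := mul_nonneg (by linarith) (by positivity)
  linarith

/-- The overlap. -/
theorem overlap {A : E →L[𝕜] E} (hA : ∀ x y, inner 𝕜 (A x) y = inner 𝕜 x (A y)) {κ : ℝ} {y : E} (hy : ‖y‖ = 1)
    {v : E} {θ : ℝ} (hv : ‖v‖ = 1) (hAv : A v = (θ : 𝕜) • v)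
    (hgap : ∀ x, inner 𝕜 v x = 0 → re (inner 𝕜 (A x) x) ≤ κ * ‖x‖ ^ 2) :
    re (inner 𝕜 (A y) y) - κ ≤ (θ - κ) * ‖(inner 𝕜 v y : 𝕜)‖ ^ 2 := by
  set a : 𝕜 := inner 𝕜 v y with ha
  set z : E := y - a • v with hz
  have hvz : inner 𝕜 v z = 0 := by
    rw [hz, inner_sub_right, inner_smul_right, inner_self_eq_norm_sq_to_K, hv, ← ha]
    simp
  have hy' : a • v + z = y := by rw [hz]; abel
  obtain ⟨h3, h4⟩ := quad_decomp hA hv hAv a hvz
  rw [hy', hy] at h4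
  rw [hy'] at h3
  have h5 := hgap z hvz
  have h6 : κ * ‖z‖ ^ 2 = κ * (1 - ‖a‖ ^ 2) := by
    have : ‖z‖ ^ 2 = 1 - ‖a‖ ^ 2 := by linarith
    rw [this]
  rw [h3]
  linarith

/-- The powers of `(1 + A) / 2`. -/
noncomputable def lazy (A : E →L[𝕜] E) : E →L[𝕜] E := ((2⁻¹ : ℝ) : 𝕜) • (1 + A)

theorem lazy_apply (A : E →L[𝕜] E) (x : E) : lazy A x = ((2⁻¹ : ℝ) : 𝕜) • (x + A x) := rfl

theorem lazy_norm {A : E →L[𝕜] E} (hA : ∀ x y, inner 𝕜 (A x) y = inner 𝕜 x (A y)) (hA1 : ∀ x, ‖A x‖ ≤ ‖x‖)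
    {κ : ℝ} (hκ0 : 0 ≤ κ) {v : E} {θ : ℝ} (hAv : A v = (θ : 𝕜) • v)
    (hgap : ∀ x, inner 𝕜 v x = 0 → re (inner 𝕜 (A x) x) ≤ κ * ‖x‖ ^ 2) {x : E} (hx : inner 𝕜 v x = 0) :
    inner 𝕜 v (lazy A x) = 0 ∧ ‖lazy A x‖ ≤ ((1 + κ) / 2) * ‖x‖ := by
  have hinv : ∀ x, inner 𝕜 v x = 0 → inner 𝕜 v (lazy A x) = 0 := by
    intro x hx
    rw [lazy_apply, inner_smul_right, inner_add_right, ← hA, hAv, inner_smul_left, hx]
    simp
  refine ⟨hinv x hx, ?_⟩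
  have hre : ∀ x, re (inner 𝕜 (lazy A x) x) = (‖x‖ ^ 2 + re (inner 𝕜 (A x) x)) / 2 := by
    intro x
    rw [lazy_apply, inner_smul_left, conj_ofReal, re_ofReal_mul, inner_add_left, map_add, inner_self_eq_norm_sq_to_K]
    have : re (((‖x‖ : ℝ) : 𝕜) ^ 2) = ‖x‖ ^ 2 := by norm_cast
    rw [this]
    ring
  have hsym : ∀ x y, inner 𝕜 (lazy A x) y = inner 𝕜 x (lazy A y) := by
    intro x y
    rw [lazy_apply, lazy_apply, inner_smul_left, inner_smul_right, conj_ofReal, inner_add_left, inner_add_right, hA]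
  have hpos : ∀ x, 0 ≤ re (inner 𝕜 (lazy A x) x) := by
    intro x
    rw [hre]
    have h1 : -(‖x‖ ^ 2) ≤ re (inner 𝕜 (A x) x) := by
      have h2 : |re (inner 𝕜 (A x) x)| ≤ ‖x‖ ^ 2 := by
        calc |re (inner 𝕜 (A x) x)| ≤ ‖inner 𝕜 (A x) x‖ := abs_re_le_norm _
          _ ≤ ‖A x‖ * ‖x‖ := norm_inner_le_norm _ _
          _ ≤ ‖x‖ * ‖x‖ := by gcongr; exact hA1 x
          _ = ‖x‖ ^ 2 := by ring
      exact (abs_le.1 h2).1
    linarith
  set β : ℝ := (1 + κ) / 2 with hβ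
  have hβ0 : 0 < β := by rw [hβ]; linarith
  have hle : ∀ x, inner 𝕜 v x = 0 → re (inner 𝕜 (lazy A x) x) ≤ β * ‖x‖ ^ 2 := by
    intro x hx
    rw [hre, hβ]
    have := hgap x hx
    linarith
  -- Cauchy - Schwarz
  have h1 : ∀ s : ℝ, 0 ≤ re (inner 𝕜 (lazy A x) x) - 2 * s * ‖lazy A x‖ ^ 2 +
      s ^ 2 * re (inner 𝕜 (lazy A (lazy A x)) (lazy A x)) := by
    intro s
    have h2 := hpos (x - (s : 𝕜) • lazy A x)
    have h3 : re (inner 𝕜 (lazy A (x - (s : 𝕜) • lazy A x)) (x - (s : 𝕜) • lazy A x)) =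
        re (inner 𝕜 (lazy A x) x) - 2 * s * ‖lazy A x‖ ^ 2 +
          s ^ 2 * re (inner 𝕜 (lazy A (lazy A x)) (lazy A x)) := by
      rw [map_sub, map_smul, inner_sub_left, inner_sub_right, inner_sub_right, inner_smul_left, inner_smul_right,
        inner_smul_left, inner_smul_right, conj_ofReal]
      have e1 : inner 𝕜 (lazy A (lazy A x)) x = inner 𝕜 (lazy A x) (lazy A x) := hsym _ _
      rw [e1, inner_self_eq_norm_sq_to_K]
      simp only [map_sub, re_ofReal_mul]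
      have e2 : re (((‖lazy A x‖ : ℝ) : 𝕜) ^ 2) = ‖lazy A x‖ ^ 2 := by norm_cast
      rw [e2]
      ring
    rw [h3] at h2
    exact h2
  have h4 := h1 β⁻¹
  have h5 := hle (lazy A x) (hinv x hx)
  have h6 := hle x hx
  have h7 : (β⁻¹) ^ 2 * re (inner 𝕜 (lazy A (lazy A x)) (lazy A x)) ≤ (β⁻¹) ^ 2 * (β * ‖lazy A x‖ ^ 2) := by
    gcongr
  have h8 : (β⁻¹) ^ 2 * (β * ‖lazy A x‖ ^ 2) = β⁻¹ * ‖lazy A x‖ ^ 2 := by field_simp
  have h9 : β⁻¹ * ‖lazy A x‖ ^ 2 ≤ β * ‖x‖ ^ 2 := by linarith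
  have h10 : ‖lazy A x‖ ^ 2 ≤ (β * ‖x‖) ^ 2 := by
    have : β * (β⁻¹ * ‖lazy A x‖ ^ 2) ≤ β * (β * ‖x‖ ^ 2) := by gcongr
    rw [← mul_assoc, mul_inv_cancel₀ hβ0.ne', one_mul] at this
    linarith
  exact le_of_sq_le_sq h10 (by positivity)

theorem lazy_pow_norm {A : E →L[𝕜] E} (hA : ∀ x y, inner 𝕜 (A x) y = inner 𝕜 x (A y)) (hA1 : ∀ x, ‖A x‖ ≤ ‖x‖)
    {κ : ℝ} (hκ0 : 0 ≤ κ) {v : E} {θ : ℝ} (hAv : A v = (θ : 𝕜) • v)
    (hgap : ∀ x, inner 𝕜 v x = 0 → re (inner 𝕜 (A x) x) ≤ κ * ‖x‖ ^ 2) (n : ℕ) :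
    ∀ {x : E}, inner 𝕜 v x = 0 → inner 𝕜 v ((lazy A ^ n) x) = 0 ∧ ‖(lazy A ^ n) x‖ ≤ ((1 + κ) / 2) ^ n * ‖x‖ := by
  induction n with
  | zero => intro x hx; simp [hx]
  | succ n ih =>
    intro x hx
    obtain ⟨h1, h2⟩ := ih hx
    obtain ⟨h3, h4⟩ := lazy_norm hA hA1 hκ0 hAv hgap h1
    rw [pow_succ']
    refine ⟨h3, h4.trans ?_⟩
    calc (1 + κ) / 2 * ‖(lazy A ^ n) x‖ ≤ (1 + κ) / 2 * (((1 + κ) / 2) ^ n * ‖x‖) := by gcongr
      _ = ((1 + κ) / 2) ^ (n + 1) * ‖x‖ := by ring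

theorem lazy_pow_eig {A : E →L[𝕜] E} {v : E} {θ : ℝ} (hAv : A v = (θ : 𝕜) • v) (n : ℕ) :
    (lazy A ^ n) v = ((((1 + θ) / 2) ^ n : ℝ) : 𝕜) • v := by
  induction n with
  | zero => simp
  | succ n ih =>
    rw [pow_succ', show (lazy A * lazy A ^ n) v = lazy A ((lazy A ^ n) v) from rfl, ih, map_smul, lazy_apply, hAv, smul_smul, pow_succ]
    have : ((2⁻¹ : ℝ) : 𝕜) • (v + (θ : 𝕜) • v) = ((((1 + θ) / 2 : ℝ)) : 𝕜) • v := by
      rw [show v + (θ : 𝕜) • v = ((1 + θ : ℝ) : 𝕜) • v by push_cast; rw [add_smul, one_smul], smul_smul]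
      congr 1
      push_cast
      ring
    rw [← smul_smul, this, smul_smul]
    push_cast
    rfl

/-- The normalized powers of `(1 + A) / 2` applied to `y` converge to the component of `y` on the top eigenvector. -/
theorem lazy_tendsto {A : E →L[𝕜] E} (hA : ∀ x y, inner 𝕜 (A x) y = inner 𝕜 x (A y)) (hA1 : ∀ x, ‖A x‖ ≤ ‖x‖)
    {κ : ℝ} (hκ0 : 0 ≤ κ) {v : E} {θ : ℝ} (hv : ‖v‖ = 1) (hθ : κ < θ) (hAv : A v = (θ : 𝕜) • v)
    (hgap : ∀ x, inner 𝕜 v x = 0 → re (inner 𝕜 (A x) x) ≤ κ * ‖x‖ ^ 2) (y : E) :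
    Tendsto (fun n : ℕ => (((((1 + θ) / 2) ^ n)⁻¹ : ℝ) : 𝕜) • (lazy A ^ n) y) atTop (𝓝 ((inner 𝕜 v y : 𝕜) • v)) := by
  set a : 𝕜 := inner 𝕜 v y with ha
  set z : E := y - a • v with hz
  have hvz : inner 𝕜 v z = 0 := by
    rw [hz, inner_sub_right, inner_smul_right, inner_self_eq_norm_sq_to_K, hv, ← ha]
    simp
  have hy' : y = a • v + z := by rw [hz]; abel
  have hβ : 0 < (1 + θ) / 2 := by linarith
  have h1 : ∀ n : ℕ, (((((1 + θ) / 2) ^ n)⁻¹ : ℝ) : 𝕜) • (lazy A ^ n) y =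
      a • v + (((((1 + θ) / 2) ^ n)⁻¹ : ℝ) : 𝕜) • (lazy A ^ n) z := by
    intro n
    conv_lhs => rw [hy']
    rw [map_add, map_smul, lazy_pow_eig hAv, smul_add]
    congr 1
    rw [smul_smul, smul_smul]
    congr 1
    have : ((1 + θ) / 2) ^ n ≠ 0 := by positivity
    rw [mul_right_comm, ← ofReal_mul, inv_mul_cancel₀ this, ofReal_one, one_mul]
  have h2 : Tendsto (fun n : ℕ => (((((1 + θ) / 2) ^ n)⁻¹ : ℝ) : 𝕜) • (lazy A ^ n) z) atTop (𝓝 0) := by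
    rw [tendsto_zero_iff_norm_tendsto_zero]
    have h3 : Tendsto (fun n : ℕ => (((1 + κ) / 2) / ((1 + θ) / 2)) ^ n * ‖z‖) atTop (𝓝 0) := by
      have h4 : Tendsto (fun n : ℕ => (((1 + κ) / 2) / ((1 + θ) / 2)) ^ n) atTop (𝓝 0) := by
        apply tendsto_pow_atTop_nhds_zero_of_lt_one
        · positivity
        · rw [div_lt_one hβ]
          linarith
      simpa using h4.mul_const ‖z‖
    refine squeeze_zero (fun n => norm_nonneg _) (fun n => ?_) h3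
    rw [norm_smul, norm_ofReal, abs_of_nonneg (by positivity)]
    calc (((1 + θ) / 2) ^ n)⁻¹ * ‖(lazy A ^ n) z‖ ≤ (((1 + θ) / 2) ^ n)⁻¹ * (((1 + κ) / 2) ^ n * ‖z‖) := by
          gcongr
          exact (lazy_pow_norm hA hA1 hκ0 hAv hgap n hvz).2
      _ = (((1 + κ) / 2) / ((1 + θ) / 2)) ^ n * ‖z‖ := by
          rw [div_pow ((1 + κ) / 2) ((1 + θ) / 2), div_eq_inv_mul (((1 + κ) / 2) ^ n), mul_assoc]
  have h3 := (tendsto_const_nhds (x := a • v)).add h2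
  rw [add_zero] at h3
  exact h3.congr fun n => (h1 n).symm

end Pool.Agent.Helper96.FP
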